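import Mathlib

set_option autoImplicit false
set_option linter.unusedSectionVars false

namespace Pool.Agent.H174Z.Grow

open Finset Equiv

variable {α : Type} [Fintype α] [LinearOrder α]

/-- permutations supported in `T` -/
def symOn (T : Finset α) : Finset (Perm α) := univ.filter (fun τ => ∀ v, v ∉ T → τ v = v)

lemma mem_symOn {T : Finset α} {τ : Perm α} : τ ∈ symOn T ↔ ∀ v, v ∉ T → τ v = v := by
  simp [symOn]

lemma card_symOn (T : Finset α) : (symOn T).card = T.card.factorial := by
  have e := Equiv.Perm.subtypeEquivSubtypePerm (fun a : α => a ∈ T)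
  have h := Fintype.card_congr e
  rw [Fintype.card_perm, Fintype.card_coe, Fintype.card_subtype] at h
  rw [h]
  unfold symOn
  congr

lemma symOn_mem {T : Finset α} {τ : Perm α} (hτ : τ ∈ symOn T) {v : α} (hv : v ∈ T) : τ v ∈ T := by
  by_contra h
  have := mem_symOn.1 hτ _ h
  have h2 : τ v = v := τ.injective this
  exact h (by rw [h2]; exact hv)

lemma symOn_inv {T : Finset α} {τ : Perm α} (hτ : τ ∈ symOn T) : τ⁻¹ ∈ symOn T := by
  rw [mem_symOn] at *
  intro v hv
  have := hτ v hv
  rw [Perm.inv_eq_iff_eq]; exact this.symm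

lemma card_agree_le {T R : Finset α} (hR : R ⊆ T) {τ0 : Perm α} (h0 : τ0 ∈ symOn T) :
    ((symOn T).filter (fun τ => ∀ r ∈ R, τ r = τ0 r)).card ≤ (T.card - R.card).factorial := by
  rw [← card_sdiff_of_subset hR, ← card_symOn]
  apply card_le_card_of_injOn (fun τ => τ0⁻¹ * τ)
  · intro τ hτ
    simp only [coe_filter, Set.mem_ofPred_eq] at hτ
    simp only [mem_coe, mem_symOn]
    intro v hv
    simp only [Perm.mul_apply]
    by_cases hvT : v ∈ T
    · have hvR : v ∈ R := by
        by_contra h; exact hv (mem_sdiff.2 ⟨hvT, h⟩)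
      rw [hτ.2 v hvR]; simp
    · rw [mem_symOn.1 hτ.1 v hvT, mem_symOn.1 (symOn_inv h0) v hvT]
  · intro a _ b _ hab
    simpa using hab

/-- averaging over cosets of `symOn T` -/
lemma card_mul_le_of_cosets (T : Finset α) (P : Perm α → Prop) [DecidablePred P] (M : ℝ)
    (h : ∀ h0 : Perm α, (((symOn T).filter (fun τ => P (h0 * τ))).card : ℝ) ≤ M) :
    ((univ.filter P).card : ℝ) * (T.card.factorial : ℝ) ≤ ((Fintype.card α).factorial : ℝ) * M := by
  have h1 : ∀ τ : Perm α, (univ.filter (fun h0 : Perm α => P (h0 * τ))).card = (univ.filter P).card := by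
    intro τ
    apply card_bij (fun h0 _ => h0 * τ)
    · intro a ha; simpa using ha
    · intro a _ b _ hab; simpa using hab
    · intro b hb
      exact ⟨b * τ⁻¹, by simpa using hb, by simp⟩
  have h2 : ∑ τ ∈ symOn T, (univ.filter (fun h0 : Perm α => P (h0 * τ))).card =
      ∑ h0 : Perm α, ((symOn T).filter (fun τ => P (h0 * τ))).card := by
    simp only [card_filter]
    rw [sum_comm]
  rw [sum_congr rfl (fun τ _ => h1 τ), sum_const, card_symOn, smul_eq_mul] at h2
  calc ((univ.filter P).card : ℝ) * (T.card.factorial : ℝ)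
      = ((∑ h0 : Perm α, ((symOn T).filter (fun τ => P (h0 * τ))).card : ℕ) : ℝ) := by
        rw [← h2]; push_cast; ring
    _ ≤ ∑ _h0 : Perm α, M := by
        push_cast; exact sum_le_sum (fun h0 _ => h h0)
    _ = _ := by simp [Fintype.card_perm]

/-- probability that `D` misses `F` -/
lemma card_miss_le (F : Finset α) (φ : ℝ) (hφ1 : φ ≤ 1) (hF : φ * Fintype.card α ≤ F.card)
    (D : Finset α) :
    ((univ.filter (fun h : Perm α => ∀ q ∈ D, h q ∉ F)).card : ℝ) ≤
      (1 - φ) ^ D.card * ((Fintype.card α).factorial : ℝ) := by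
  induction D using Finset.induction_on with
  | empty => simp [Fintype.card_perm]
  | insert q D hq ih =>
    set H := univ.filter (fun h : Perm α => ∀ q ∈ D, h q ∉ F) with hH
    have hsym : ∀ q' ∉ D, (H.filter (fun h => h q' ∈ F)).card = (H.filter (fun h => h q ∈ F)).card := by
      intro q' hq'
      apply card_bij (fun h _ => h * swap q q')
      · intro a ha
        simp only [hH, mem_filter, mem_univ, true_and] at ha ⊢
        refine ⟨fun r hr => ?_, by simpa using ha.2⟩
        have : swap q q' r = r := swap_apply_of_ne_of_ne (fun e => hq (e ▸ hr)) (fun e => hq' (e ▸ hr))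
        simp only [Perm.mul_apply, this]; exact ha.1 r hr
      · intro a _ b _ hab; simpa using hab
      · intro b hb
        refine ⟨b * swap q q', ?_, by simp [mul_assoc]⟩
        simp only [hH, mem_filter, mem_univ, true_and] at hb ⊢
        refine ⟨fun r hr => ?_, by simpa using hb.2⟩
        have : swap q q' r = r := swap_apply_of_ne_of_ne (fun e => hq (e ▸ hr)) (fun e => hq' (e ▸ hr))
        simp only [Perm.mul_apply, this]; exact hb.1 r hr
    have hsum : ∑ q' ∈ univ.filter (fun q' => q' ∉ D), (H.filter (fun h => h q' ∈ F)).card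
        = H.card * F.card := by
      simp only [card_filter]
      rw [sum_comm, ← smul_eq_mul, ← sum_const]
      apply sum_congr rfl
      intro h hh
      rw [← card_filter]
      apply card_bij (fun q' _ => h q')
      · intro a ha; exact (mem_filter.1 ha).2
      · intro a _ b _ hab; exact h.injective hab
      · intro b hb
        refine ⟨h⁻¹ b, ?_, by simp⟩
        simp only [mem_filter, mem_univ, true_and, Perm.coe_inv, apply_symm_apply]
        refine ⟨fun hD => ?_, hb⟩
        have := (mem_filter.1 hh).2 _ hD
        simp at this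
        exact this hb
    rw [sum_congr rfl (fun q' hq' => hsym q' (mem_filter.1 hq').2), sum_const, smul_eq_mul] at hsum
    have hle : (univ.filter (fun q' => q' ∉ D)).card ≤ Fintype.card α := card_le_univ _
    have hpos : (0 : ℝ) < Fintype.card α := by
      have : Nonempty α := ⟨q⟩
      exact_mod_cast Fintype.card_pos
    have h3 : φ * H.card ≤ (H.filter (fun h => h q ∈ F)).card := by
      have h4 : (H.card : ℝ) * F.card ≤ Fintype.card α * (H.filter (fun h => h q ∈ F)).card := by
        have := Nat.mul_le_mul_right (H.filter (fun h => h q ∈ F)).card hle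
        rw [hsum] at this
        exact_mod_cast this
      have h5 : (H.card : ℝ) * (φ * Fintype.card α) ≤ (H.card : ℝ) * F.card :=
        mul_le_mul_of_nonneg_left hF (by positivity)
      nlinarith
    have h6 : (univ.filter (fun h : Perm α => ∀ r ∈ insert q D, h r ∉ F)) =
        H.filter (fun h => ¬ h q ∈ F) := by
      ext h
      simp only [hH, mem_filter, mem_univ, true_and, mem_insert, forall_eq_or_imp]
      tauto
    have h7 := card_filter_add_card_filter_not (s := H) (fun h => h q ∈ F)
    have h8 : ((H.filter (fun h => ¬ h q ∈ F)).card : ℝ) ≤ (1 - φ) * H.card := by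
      have : ((H.filter (fun h => h q ∈ F)).card : ℝ) + (H.filter (fun h => ¬ h q ∈ F)).card
          = H.card := by exact_mod_cast h7
      linarith
    rw [h6, card_insert_of_notMem hq, pow_succ]
    calc _ ≤ (1 - φ) * H.card := h8
      _ ≤ (1 - φ) * ((1 - φ) ^ D.card * ((Fintype.card α).factorial : ℝ)) :=
          mul_le_mul_of_nonneg_left ih (by linarith)
      _ = _ := by ring

/-- lower tail for the number of hits -/
lemma card_few_hits (F : Finset α) (φ : ℝ) (hφ0 : 0 ≤ φ) (hφ1 : φ ≤ 1)
    (hF : φ * Fintype.card α ≤ F.card) (D : Finset α) :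
    ((univ.filter (fun h : Perm α =>
        ((D.filter (fun q => h q ∈ F)).card : ℝ) ≤ φ / 4 * D.card)).card : ℝ) ≤
      Real.exp (-(φ / 4) * D.card) * ((Fintype.card α).factorial : ℝ) := by
  have h1 : ∑ h : Perm α, (2 : ℝ) ^ (D.filter (fun q => h q ∉ F)).card ≤
      (2 - φ) ^ D.card * ((Fintype.card α).factorial : ℝ) := by
    have e : ∀ h : Perm α, (2 : ℝ) ^ (D.filter (fun q => h q ∉ F)).card =
        ∑ D0 ∈ D.powerset, if (∀ q ∈ D0, h q ∉ F) then (1 : ℝ) else 0 := by
      intro h
      rw [sum_boole]
      have : D.powerset.filter (fun D0 => ∀ q ∈ D0, h q ∉ F) =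
          (D.filter (fun q => h q ∉ F)).powerset := by
        ext D0
        simp only [mem_filter, mem_powerset]
        constructor
        · rintro ⟨h1, h2⟩ q hq; exact mem_filter.2 ⟨h1 hq, h2 q hq⟩
        · intro h1
          exact ⟨fun q hq => (mem_filter.1 (h1 hq)).1, fun q hq => (mem_filter.1 (h1 hq)).2⟩
      rw [this, card_powerset]; push_cast; rfl
    rw [sum_congr rfl (fun h _ => e h), sum_comm]
    calc ∑ D0 ∈ D.powerset, ∑ h : Perm α, (if (∀ q ∈ D0, h q ∉ F) then (1 : ℝ) else 0)
        ≤ ∑ D0 ∈ D.powerset, (1 - φ) ^ D0.card * ((Fintype.card α).factorial : ℝ) := by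
          apply sum_le_sum
          intro D0 _
          rw [sum_boole]
          exact card_miss_le F φ hφ1 hF D0
      _ = (2 - φ) ^ D.card * ((Fintype.card α).factorial : ℝ) := by
          rw [← sum_mul]
          congr 1
          have := Finset.sum_pow_mul_eq_add_pow (1 - φ) (1 : ℝ) D
          simp only [one_pow, mul_one] at this
          rw [this]; congr 1; ring
  set Bad := univ.filter (fun h : Perm α =>
        ((D.filter (fun q => h q ∈ F)).card : ℝ) ≤ φ / 4 * D.card) with hBad
  have h2 : (Bad.card : ℝ) * Real.exp ((1 - φ / 4) * D.card * Real.log 2) ≤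
      ∑ h : Perm α, (2 : ℝ) ^ (D.filter (fun q => h q ∉ F)).card := by
    calc (Bad.card : ℝ) * Real.exp ((1 - φ / 4) * D.card * Real.log 2)
        = ∑ _h ∈ Bad, Real.exp ((1 - φ / 4) * D.card * Real.log 2) := by simp
      _ ≤ ∑ h ∈ Bad, (2 : ℝ) ^ (D.filter (fun q => h q ∉ F)).card := by
          apply sum_le_sum
          intro h hh
          have hh' := (mem_filter.1 hh).2
          have h7 := card_filter_add_card_filter_not (s := D) (fun q => h q ∈ F)
          have h8 : ((D.filter (fun q => h q ∈ F)).card : ℝ) + (D.filter (fun q => h q ∉ F)).card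
            = D.card := by exact_mod_cast h7
          rw [← Real.exp_log (show (0 : ℝ) < 2 ^ (D.filter (fun q => h q ∉ F)).card by positivity),
            Real.log_pow]
          apply Real.exp_le_exp.2
          apply mul_le_mul_of_nonneg_right _ (Real.log_nonneg (by norm_num))
          linarith
      _ ≤ _ := sum_le_sum_of_subset_of_nonneg (subset_univ _) (fun _ _ _ => by positivity)
  have h3 : (2 - φ) ^ D.card ≤ Real.exp ((Real.log 2 - φ / 2) * D.card) := by
    have : 2 - φ ≤ Real.exp (Real.log 2 - φ / 2) := by
      rw [Real.exp_sub, Real.exp_log (by norm_num), div_eq_mul_inv, ← Real.exp_neg]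
      have := Real.add_one_le_exp (-(φ / 2))
      linarith
    calc (2 - φ) ^ D.card ≤ (Real.exp (Real.log 2 - φ / 2)) ^ D.card :=
          pow_le_pow_left₀ (by linarith) this _
      _ = _ := by rw [← Real.exp_nat_mul]; ring_nf
  have hlog : Real.log 2 ≤ 1 := by
    have := Real.log_two_lt_d9; linarith
  have hlog0 : 0 ≤ Real.log 2 := Real.log_nonneg (by norm_num)
  have h4 : (Bad.card : ℝ) * Real.exp ((1 - φ / 4) * D.card * Real.log 2) ≤
      Real.exp (-(φ / 4) * D.card) * ((Fintype.card α).factorial : ℝ) *
        Real.exp ((1 - φ / 4) * D.card * Real.log 2) := by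
    calc _ ≤ (2 - φ) ^ D.card * ((Fintype.card α).factorial : ℝ) := h2.trans h1
      _ ≤ Real.exp ((Real.log 2 - φ / 2) * D.card) * ((Fintype.card α).factorial : ℝ) := by gcongr
      _ ≤ (Real.exp (-(φ / 4) * D.card) * Real.exp ((1 - φ / 4) * D.card * Real.log 2)) *
          ((Fintype.card α).factorial : ℝ) := by
          gcongr
          rw [← Real.exp_add]
          apply Real.exp_le_exp.2
          have hD : (0 : ℝ) ≤ D.card := by positivity
          have : φ * D.card * Real.log 2 ≤ φ * D.card * 1 :=
            mul_le_mul_of_nonneg_left hlog (by positivity)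
          nlinarith
      _ = _ := by ring
  exact le_of_mul_le_mul_right h4 (Real.exp_pos _)

/-- the even permutations -/
def evens (α : Type) [Fintype α] [LinearOrder α] : Finset (Perm α) :=
  univ.filter (fun h => Perm.sign h = 1)

lemma mem_evens {h : Perm α} : h ∈ evens α ↔ h ∈ alternatingGroup α := by
  simp [evens, Perm.mem_alternatingGroup]

lemma two_mul_card_evens (hn : 3 ≤ Fintype.card α) :
    2 * (evens α).card = (Fintype.card α).factorial := by
  have : Nontrivial α := Fintype.one_lt_card_iff_nontrivial.1 (by omega)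
  classical
  rw [← Fintype.card_perm, ← Nat.card_eq_fintype_card, ← two_mul_nat_card_alternatingGroup]
  congr 1
  rw [← Fintype.card_coe, ← Nat.card_eq_fintype_card]
  apply Nat.card_congr
  exact Equiv.subtypeEquivRight (fun h => mem_evens)

lemma card_evens_hit (hn : 3 ≤ Fintype.card α) (F : Finset α) (φ : ℝ)
    (hF : φ * Fintype.card α ≤ F.card) (j : α) :
    φ * (evens α).card ≤ ((evens α).filter (fun h => h j ∈ F)).card := by
  have htr := alternatingGroup.isPretransitive_of_three_le_card α (by simpa using hn)
  have hsym : ∀ j' : α, ((evens α).filter (fun h => h j' ∈ F)).card =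
      ((evens α).filter (fun h => h j ∈ F)).card := by
    intro j'
    obtain ⟨κ, hκ⟩ := htr.exists_smul_eq j j'
    have hκ' : (κ : Perm α) j = j' := hκ
    apply card_bij (fun h _ => h * (κ : Perm α))
    · intro a ha
      simp only [mem_filter, mem_evens] at ha ⊢
      exact ⟨mul_mem ha.1 κ.2, by simpa [hκ'] using ha.2⟩
    · intro a _ b _ hab; simpa using hab
    · intro b hb
      refine ⟨b * (κ : Perm α)⁻¹, ?_, by simp⟩
      simp only [mem_filter, mem_evens] at hb ⊢
      refine ⟨mul_mem hb.1 (inv_mem κ.2), ?_⟩
      have : (κ : Perm α)⁻¹ j' = j := by rw [← hκ']; simp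
      rw [Perm.mul_apply, this]; exact hb.2
  have hsum : ∑ j' : α, ((evens α).filter (fun h => h j' ∈ F)).card = (evens α).card * F.card := by
    simp only [card_filter]
    rw [sum_comm, ← smul_eq_mul, ← sum_const]
    apply sum_congr rfl
    intro h _
    rw [← card_filter]
    apply card_bij (fun q' _ => h q')
    · intro a ha; exact (mem_filter.1 ha).2
    · intro a _ b _ hab; exact h.injective hab
    · intro b hb
      exact ⟨h⁻¹ b, by simpa using hb, by simp⟩
  rw [sum_congr rfl (fun j' _ => hsym j'), sum_const, card_univ, smul_eq_mul] at hsum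
  have hpos : (0 : ℝ) < Fintype.card α := by
    have : (3 : ℝ) ≤ Fintype.card α := by exact_mod_cast hn
    linarith
  have h4 : (Fintype.card α : ℝ) * ((evens α).filter (fun h => h j ∈ F)).card =
      (evens α).card * F.card := by exact_mod_cast hsum
  have h5 : ((evens α).card : ℝ) * (φ * Fintype.card α) ≤ ((evens α).card : ℝ) * F.card :=
    mul_le_mul_of_nonneg_left hF (by positivity)
  nlinarith

/-- an independent subset for a fixed-point-free part of a permutation -/
lemma exists_indep (b : Perm α) (G : Finset α) (hG : ∀ q ∈ G, b q ≠ q) :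
    ∃ S ⊆ G, Disjoint S (S.image b) ∧ G.card ≤ 3 * S.card := by
  induction G using Finset.strongInduction with
  | H G ih =>
    rcases G.eq_empty_or_nonempty with rfl | ⟨q, hq⟩
    · exact ⟨∅, by simp⟩
    · set G' := ((G.erase q).erase (b q)).erase (b⁻¹ q) with hG'
      have hsub : G' ⊆ G.erase q := (erase_subset _ _).trans (erase_subset _ _)
      have hss : G' ⊂ G := lt_of_le_of_lt hsub (erase_ssubset hq)
      obtain ⟨S, hS, hd, hc⟩ := ih G' hss (fun r hr => hG r (hss.1 hr))
      have hqS : q ∉ S := fun h => (notMem_erase q G) (hsub (hS h))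
      refine ⟨insert q S, insert_subset hq (hS.trans hss.1), ?_, ?_⟩
      · rw [disjoint_left]
        intro a ha ha2
        obtain ⟨r, hr, hra⟩ := mem_image.1 ha2
        rcases mem_insert.1 ha with ha | ha
        · rcases mem_insert.1 hr with hr | hr
          · exact hG q hq (by rw [← hr, hra, hr, ha])
          · have h1 := hS hr
            simp only [hG', mem_erase] at h1
            apply h1.1
            rw [← ha, ← hra]; simp
        · rcases mem_insert.1 hr with hr | hr
          · have h1 := hS ha
            simp only [hG', mem_erase] at h1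
            exact h1.2.1 (by rw [← hra, hr])
          · exact disjoint_left.1 hd ha (mem_image.2 ⟨r, hr, hra⟩)
      · rw [card_insert_of_notMem hqS]
        have h1 := pred_card_le_card_erase (s := G) (a := q)
        have h2 := pred_card_le_card_erase (s := G.erase q) (a := b q)
        have h3 := pred_card_le_card_erase (s := (G.erase q).erase (b q)) (a := b⁻¹ q)
        rw [← hG'] at h3
        omega

lemma ratio_le (N s : ℕ) (hs : s ≤ N) (g : ℝ) (hg0 : 0 ≤ g)
    (hg : g ≤ ((N - s : ℕ) : ℝ) + 1 ∨ Real.exp 1 * g ≤ s) :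
    g ^ s * ((N - s).factorial : ℝ) ≤ (N.factorial : ℝ) := by
  rw [← Nat.factorial_mul_descFactorial hs]
  push_cast
  rw [mul_comm]
  apply mul_le_mul_of_nonneg_left _ (by positivity)
  rcases hg with hg | hg
  · calc g ^ s ≤ (((N - s : ℕ) : ℝ) + 1) ^ s := pow_le_pow_left₀ hg0 hg _
      _ = (((N + 1 - s) ^ s : ℕ) : ℝ) := by
          have : N + 1 - s = (N - s) + 1 := by omega
          rw [this]; push_cast; ring
      _ ≤ _ := by exact_mod_cast Nat.pow_sub_le_descFactorial N s
  · have h1 : (s : ℝ) ^ s / s.factorial ≤ Real.exp s := Real.pow_div_factorial_le_exp _ (by positivity) s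
    have h2 : (Real.exp 1 * g) ^ s ≤ (s : ℝ) ^ s := pow_le_pow_left₀ (by positivity) hg _
    rw [mul_pow, ← Real.exp_nat_mul, mul_one] at h2
    have hf : (0 : ℝ) < s.factorial := by positivity
    rw [div_le_iff₀ hf] at h1
    have h3 : g ^ s ≤ s.factorial := by
      have := h2.trans h1
      exact le_of_mul_le_mul_left this (Real.exp_pos _)
    refine h3.trans ?_
    have : s.factorial ≤ N.descFactorial s := by
      rw [Nat.descFactorial_eq_factorial_mul_choose]
      exact Nat.le_mul_of_pos_right _ (Nat.choose_pos hs)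
    exact_mod_cast this

end Pool.Agent.H174Z.Grow
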