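import Mathlib

set_option autoImplicit false
set_option linter.unusedSectionVars false

namespace Pool.Agent.H174Z.Grow

open Finset Equiv

variable {α : Type} [Fintype α] [LinearOrder α]

/-- number of elements of `B` agreeing with `x` on `E` -/
def cnt (B : Finset (Perm α)) (x : α → α) (E : Finset α) : ℕ :=
  (B.filter (fun z => ∀ i ∈ E, z i = x i)).card

/-- elements of `V` before `p` -/
def pre (V : Finset α) (p : α) : Finset α := V.filter (fun i => i < p)

/-- conditional probability of the value `x p` given the values of `x` on `pre V p` -/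
noncomputable def cp (B : Finset (Perm α)) (V : Finset α) (x : α → α) (p : α) : ℝ :=
  (cnt B x (insert p (pre V p)) : ℝ) / (cnt B x (pre V p) : ℝ)

lemma cnt_mono (B : Finset (Perm α)) (x : α → α) {E E' : Finset α} (h : E ⊆ E') :
    cnt B x E' ≤ cnt B x E := by
  unfold cnt
  apply card_le_card
  intro z hz
  simp only [mem_filter] at hz ⊢
  exact ⟨hz.1, fun i hi => hz.2 i (h hi)⟩

lemma cnt_congr (B : Finset (Perm α)) {x y : α → α} {E : Finset α} (h : ∀ i ∈ E, x i = y i) :
    cnt B x E = cnt B y E := by
  unfold cnt
  congr 1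
  apply filter_congr
  intro z _
  constructor
  · intro hz i hi; rw [hz i hi, h i hi]
  · intro hz i hi; rw [hz i hi, h i hi]

lemma cnt_pos (B : Finset (Perm α)) {x : Perm α} (hx : x ∈ B) (E : Finset α) :
    0 < cnt B x E := by
  unfold cnt
  apply card_pos.2
  exact ⟨x, by simp [hx]⟩

lemma cp_nonneg (B : Finset (Perm α)) (V : Finset α) (x : α → α) (p : α) : 0 ≤ cp B V x p := by
  unfold cp; positivity

lemma cp_le_one (B : Finset (Perm α)) (V : Finset α) (x : α → α) (p : α) : cp B V x p ≤ 1 := by
  unfold cp
  apply div_le_one_of_le₀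
  · exact_mod_cast cnt_mono B x (subset_insert _ _)
  · positivity

lemma cp_pos (B : Finset (Perm α)) (V : Finset α) {x : Perm α} (hx : x ∈ B) (p : α) :
    0 < cp B V x p := by
  unfold cp
  have h1 := cnt_pos B hx (insert p (pre V p))
  have h2 := cnt_pos B hx (pre V p)
  positivity

lemma pre_insert_max {V : Finset α} {m : α} (hm : ∀ i ∈ V, i < m) : pre (insert m V) m = V := by
  ext i
  simp only [pre, mem_filter, mem_insert]
  constructor
  · rintro ⟨h | h, h2⟩
    · exact absurd h2 (by simp [h])
    · exact h
  · intro h; exact ⟨Or.inr h, hm i h⟩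

lemma pre_insert_lt {V : Finset α} {m p : α} (hp : p < m) : pre (insert m V) p = pre V p := by
  ext i
  simp only [pre, mem_filter, mem_insert]
  constructor
  · rintro ⟨h | h, h2⟩
    · exact absurd (h ▸ h2) (not_lt.2 hp.le)
    · exact ⟨h, h2⟩
  · rintro ⟨h, h2⟩; exact ⟨Or.inr h, h2⟩

lemma cp_insert_lt (B : Finset (Perm α)) {V : Finset α} {m p : α} (hp : p < m) (x : α → α) :
    cp B (insert m V) x p = cp B V x p := by
  unfold cp; rw [pre_insert_lt hp]

lemma prod_cp (B : Finset (Perm α)) {x : Perm α} (hx : x ∈ B) (V : Finset α) :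
    ∏ p ∈ V, cp B V x p = (cnt B x V : ℝ) / (B.card : ℝ) := by
  induction V using Finset.induction_on_max with
  | empty =>
    have : (0 : ℝ) < B.card := by exact_mod_cast card_pos.2 ⟨x, hx⟩
    simp [cnt, this.ne']
  | insert m V hm ih =>
    have hmV : m ∉ V := fun h => lt_irrefl _ (hm m h)
    rw [prod_insert hmV]
    have h1 : ∏ p ∈ V, cp B (insert m V) x p = ∏ p ∈ V, cp B V x p :=
      prod_congr rfl (fun p hp => cp_insert_lt B (hm p hp) x)
    rw [h1, ih]
    unfold cp
    rw [pre_insert_max hm]
    have h2 : (0 : ℝ) < cnt B x V := by exact_mod_cast cnt_pos B hx V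
    field_simp

lemma inv_card_le_prod_cp (B : Finset (Perm α)) {x : Perm α} (hx : x ∈ B) (V : Finset α) :
    1 / (B.card : ℝ) ≤ ∏ p ∈ V, cp B V x p := by
  rw [prod_cp B hx]
  apply div_le_div_of_nonneg_right _ (by positivity)
  exact_mod_cast cnt_pos B hx V

lemma sum_cnt_update (B : Finset (Perm α)) (x : α → α) {V : Finset α} {m : α} (hm : m ∉ V) :
    ∑ v : α, cnt B (Function.update x m v) (insert m V) = cnt B x V := by
  unfold cnt
  rw [card_eq_sum_card_fiberwise (f := fun z : Perm α => z m) (t := univ) (by simp)]
  apply sum_congr rfl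
  intro v _
  rw [filter_filter]
  congr 1
  apply filter_congr
  intro z _
  constructor
  · intro h
    refine ⟨fun i hi => ?_, ?_⟩
    · have := h i (mem_insert_of_mem hi)
      rwa [Function.update_of_ne (fun (e : i = m) => hm (e ▸ hi))] at this
    · simpa using h m (mem_insert_self _ _)
  · rintro ⟨h1, h2⟩ i hi
    rcases mem_insert.1 hi with rfl | hi
    · simpa using h2
    · rw [Function.update_of_ne (fun (e : i = m) => hm (e ▸ hi))]; exact h1 i hi

lemma sum_biUnion_le' {ι β : Type} [DecidableEq β] (s : Finset ι) (t : ι → Finset β) (w : β → ℝ)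
    (hw : ∀ b, 0 ≤ w b) : ∑ b ∈ s.biUnion t, w b ≤ ∑ i ∈ s, ∑ b ∈ t i, w b := by
  classical
  induction s using Finset.induction_on with
  | empty => simp
  | insert a s ha ih =>
    rw [biUnion_insert, sum_insert ha]
    calc ∑ b ∈ t a ∪ s.biUnion t, w b ≤ ∑ b ∈ t a, w b + ∑ b ∈ s.biUnion t, w b := by
          rw [← sum_union_inter]
          exact le_add_of_nonneg_right (sum_nonneg (fun y _ => hw y))
      _ ≤ _ := by linarith

/-- the weight lemma -/
lemma weight (B : Finset (Perm α)) (S : Finset α) {ι : Type} (I : Finset ι) (X : ι → α → α)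
    (M : ℝ) (hM : 0 ≤ M) (V : Finset α) :
    ∀ (c : ι → ℝ), (∀ i, 0 ≤ c i) →
      (∀ i ∈ I, ∀ j ∈ I, ∀ p ∈ V, p ∉ S → X i p = X j p) →
      (∀ i ∈ I, ∑ j ∈ I.filter (fun j => ∀ p ∈ V, X j p = X i p), c j ≤ M) →
      ∑ i ∈ I, c i * ∏ p ∈ V.filter (fun p => p ∈ S), cp B V (X i) p ≤ M := by
  induction V using Finset.induction_on_max with
  | empty =>
    intro c _ _ hcl
    rcases I.eq_empty_or_nonempty with rfl | ⟨i, hi⟩
    · simpa using hM
    · simpa using hcl i hi
  | insert m V hm ih =>
    intro c hc hag hcl
    have hmV : m ∉ V := fun h => lt_irrefl _ (hm m h)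
    by_cases hmS : m ∈ S
    · have key := ih (fun i => c i * cp B (insert m V) (X i) m)
        (fun i => mul_nonneg (hc i) (cp_nonneg _ _ _ _))
        (fun i hi j hj p hp hpS => hag i hi j hj p (mem_insert_of_mem hp) hpS) ?_
      · refine le_trans (le_of_eq ?_) key
        apply sum_congr rfl
        intro i _
        rw [filter_insert, if_pos hmS, prod_insert (by simp [hmV]), mul_assoc]
        congr 2
        exact prod_congr rfl (fun p hp => cp_insert_lt B (hm p (mem_filter.1 hp).1) _)
      · intro i hi
        set J := I.filter (fun j => ∀ p ∈ V, X j p = X i p) with hJ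
        rw [← sum_fiberwise_of_maps_to (s := J) (t := univ) (g := fun j => X j m) (by simp)]
        have hv : ∀ v : α, ∑ j ∈ J.filter (fun j => X j m = v), c j * cp B (insert m V) (X j) m
            ≤ M * ((cnt B (Function.update (X i) m v) (insert m V) : ℝ) / (cnt B (X i) V : ℝ)) := by
          intro v
          have e : ∀ j ∈ J.filter (fun j => X j m = v), cp B (insert m V) (X j) m =
              ((cnt B (Function.update (X i) m v) (insert m V) : ℝ) / (cnt B (X i) V : ℝ)) := by
            intro j hj
            obtain ⟨hj1, hj2⟩ := mem_filter.1 hj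
            obtain ⟨_, hj3⟩ := mem_filter.1 hj1
            unfold cp
            rw [pre_insert_max hm, cnt_congr B hj3]
            congr 2
            apply cnt_congr
            intro p hp
            rcases mem_insert.1 hp with rfl | hp
            · simpa using hj2
            · rw [Function.update_of_ne (fun (e : p = m) => hmV (e ▸ hp))]; exact hj3 p hp
          rw [sum_congr rfl (fun j hj => by rw [e j hj]), ← sum_mul]
          apply mul_le_mul_of_nonneg_right _ (by positivity)
          rcases (J.filter (fun j => X j m = v)).eq_empty_or_nonempty with h0 | ⟨j0, hj0⟩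
          · rw [h0]; simpa using hM
          · obtain ⟨hj1, hj2⟩ := mem_filter.1 hj0
            obtain ⟨hj0I, hj3⟩ := mem_filter.1 hj1
            refine le_trans (le_of_eq ?_) (hcl j0 hj0I)
            apply sum_congr _ (fun _ _ => rfl)
            ext j
            simp only [hJ, mem_filter, mem_insert, forall_eq_or_imp]
            constructor
            · rintro ⟨⟨h1, h2⟩, h3⟩
              exact ⟨h1, by rw [h3, hj2], fun p hp => by rw [h2 p hp, hj3 p hp]⟩
            · rintro ⟨h1, h2, h3⟩
              exact ⟨⟨h1, fun p hp => by rw [h3 p hp, hj3 p hp]⟩, by rw [h2, hj2]⟩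
        refine le_trans (sum_le_sum (fun v _ => hv v)) ?_
        rw [← mul_sum, ← sum_div, ← Nat.cast_sum, sum_cnt_update B _ hmV]
        calc M * ((cnt B (X i) V : ℝ) / (cnt B (X i) V : ℝ)) ≤ M * 1 := by
              apply mul_le_mul_of_nonneg_left _ hM
              exact div_self_le_one _
          _ = M := mul_one M
    · have key := ih c hc
        (fun i hi j hj p hp hpS => hag i hi j hj p (mem_insert_of_mem hp) hpS) ?_
      · refine le_trans (le_of_eq ?_) key
        apply sum_congr rfl
        intro i _
        rw [filter_insert, if_neg hmS]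
        congr 1
        exact prod_congr rfl (fun p hp => cp_insert_lt B (hm p (mem_filter.1 hp).1) _)
      · intro i hi
        refine le_trans (le_of_eq ?_) (hcl i hi)
        apply sum_congr _ (fun _ _ => rfl)
        ext j
        simp only [mem_filter, mem_insert, forall_eq_or_imp]
        constructor
        · rintro ⟨h1, h2⟩
          exact ⟨h1, hag j h1 i hi m (mem_insert_self _ _) hmS, h2⟩
        · rintro ⟨h1, _, h2⟩
          exact ⟨h1, h2⟩

/-- the ball version of the weight lemma -/
lemma weight_ball (A : Finset (Perm α)) (F : Finset α) (m : ℕ) :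
    ∀ φ : α → α, ∑ y ∈ A.filter (fun y => (F.filter (fun j => y j ≠ φ j)).card ≤ m),
      ∏ p ∈ univ.filter (fun p => p ∉ F), cp A univ y p ≤ ((Fintype.card α : ℝ) ^ 2 + 1) ^ m := by
  have base : ∀ φ : α → α, ∑ y ∈ A.filter (fun y => (F.filter (fun j => y j ≠ φ j)).card ≤ 0),
      ∏ p ∈ univ.filter (fun p => p ∉ F), cp A univ y p ≤ 1 := by
    intro φ
    have := weight A (univ.filter (fun p => p ∉ F))
      (A.filter (fun y => (F.filter (fun j => y j ≠ φ j)).card ≤ 0)) (fun y => y) 1 zero_le_one univ
      (fun _ => 1) (fun _ => zero_le_one) ?_ ?_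
    · simpa using this
    · intro i hi j hj p _ hp
      simp only [mem_filter, mem_univ, true_and, not_not, nonpos_iff_eq_zero, card_eq_zero,
        filter_eq_empty_iff] at hi hj hp
      rw [hi.2 hp, hj.2 hp]
    · intro i _
      rw [sum_const, nsmul_eq_mul, mul_one]
      have : ((A.filter (fun y => (F.filter (fun j => y j ≠ φ j)).card ≤ 0)).filter
          (fun j : Perm α => ∀ p ∈ (univ : Finset α), j p = i p)).card ≤ 1 := by
        apply card_le_one.2
        intro a ha b hb
        ext p
        rw [(mem_filter.1 ha).2 p (mem_univ _), (mem_filter.1 hb).2 p (mem_univ _)]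
      exact_mod_cast this
  induction m with
  | zero => intro φ; simpa using base φ
  | succ m ih =>
    intro φ
    set w : Perm α → ℝ := fun y => ∏ p ∈ univ.filter (fun p => p ∉ F), cp A univ y p with hw
    have hw0 : ∀ y, 0 ≤ w y := fun y => prod_nonneg (fun p _ => cp_nonneg _ _ _ _)
    have hsub : A.filter (fun y => (F.filter (fun j => y j ≠ φ j)).card ≤ m + 1) ⊆
        A.filter (fun y => (F.filter (fun j => y j ≠ φ j)).card ≤ m) ∪
        (univ : Finset (α × α)).biUnion (fun jv =>
          A.filter (fun y => (F.filter (fun j => y j ≠ Function.update φ jv.1 jv.2 j)).card ≤ m)) := by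
      intro y hy
      obtain ⟨hyA, hy⟩ := mem_filter.1 hy
      rcases (F.filter (fun j => y j ≠ φ j)).eq_empty_or_nonempty with h0 | ⟨j0, hj0⟩
      · apply mem_union_left
        exact mem_filter.2 ⟨hyA, by rw [h0]; simp⟩
      · apply mem_union_right
        refine mem_biUnion.2 ⟨(j0, y j0), mem_univ _, mem_filter.2 ⟨hyA, ?_⟩⟩
        have : F.filter (fun j => y j ≠ Function.update φ j0 (y j0) j) =
            (F.filter (fun j => y j ≠ φ j)).erase j0 := by
          ext j
          simp only [mem_filter, mem_erase]
          by_cases hj : j = j0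
          · subst hj; simp
          · simp [Function.update_of_ne hj, hj]
        simp only
        rw [this, card_erase_of_mem hj0]
        omega
    calc ∑ y ∈ A.filter (fun y => (F.filter (fun j => y j ≠ φ j)).card ≤ m + 1), w y
        ≤ ∑ y ∈ (A.filter (fun y => (F.filter (fun j => y j ≠ φ j)).card ≤ m) ∪
          (univ : Finset (α × α)).biUnion (fun jv =>
          A.filter (fun y => (F.filter (fun j => y j ≠ Function.update φ jv.1 jv.2 j)).card ≤ m))),
            w y := sum_le_sum_of_subset_of_nonneg hsub (fun y _ _ => hw0 y)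
      _ ≤ ∑ y ∈ A.filter (fun y => (F.filter (fun j => y j ≠ φ j)).card ≤ m), w y +
          ∑ y ∈ (univ : Finset (α × α)).biUnion (fun jv =>
          A.filter (fun y => (F.filter (fun j => y j ≠ Function.update φ jv.1 jv.2 j)).card ≤ m)),
            w y := by
          rw [← sum_union_inter]
          exact le_add_of_nonneg_right (sum_nonneg (fun y _ => hw0 y))
      _ ≤ ((Fintype.card α : ℝ) ^ 2 + 1) ^ m +
          ∑ jv : α × α, ∑ y ∈ A.filter (fun y =>
            (F.filter (fun j => y j ≠ Function.update φ jv.1 jv.2 j)).card ≤ m), w y := by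
          apply add_le_add (ih φ)
          exact sum_biUnion_le' _ _ _ hw0
      _ ≤ ((Fintype.card α : ℝ) ^ 2 + 1) ^ m +
          ∑ _jv : α × α, ((Fintype.card α : ℝ) ^ 2 + 1) ^ m := by
          gcongr with jv
          exact ih _
      _ = ((Fintype.card α : ℝ) ^ 2 + 1) ^ (m + 1) := by
          simp only [sum_const, card_univ, Fintype.card_prod, nsmul_eq_mul]
          push_cast; ring

end Pool.Agent.H174Z.Grow
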