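import Mathlib
import Pool.Agent.H174Z.Grow.Weight
import Pool.Agent.H174Z.Grow.PermCount

set_option autoImplicit false
set_option linter.unusedSectionVars false

namespace Pool.Agent.H174Z.Grow

open Finset Equiv

variable {α : Type} [Fintype α] [LinearOrder α] {L : ℕ} [NeZero L]

def early (ω : α → Fin L) : Finset α := univ.filter (fun p => ω p ≠ 0)

def Rigid (B : Finset (Perm α)) (θ : ℝ) (x : α → α) (ω : α → Fin L) (p : α) : Prop :=
  ω p ≠ 0 ∧ θ ≤ cp B (early ω) x p

noncomputable instance (B : Finset (Perm α)) (θ : ℝ) (x : α → α) (ω : α → Fin L) (p : α) :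
    Decidable (Rigid B θ x ω p) := Classical.dec _

noncomputable def rigSet (L : ℕ) [NeZero L] (B : Finset (Perm α)) (θ ρ : ℝ) (x : α → α) :
    Finset α :=
  univ.filter (fun p => ρ * (L : ℝ) ^ Fintype.card α ≤
    ((univ.filter (fun ω : α → Fin L => Rigid B θ x ω p)).card : ℝ))

noncomputable def kill (L : ℕ) [NeZero L] (B : Finset (Perm α)) (θ c : ℝ) (x : α → α) (p : α) :
    Finset α :=
  univ.filter (fun u => ((univ.filter (fun ω : α → Fin L => Rigid B θ x ω p ∧ ω u = 0)).card : ℝ)
    < c * (L : ℝ) ^ Fintype.card α)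

lemma card_omega : ((univ : Finset (α → Fin L)).card : ℝ) = (L : ℝ) ^ Fintype.card α := by
  simp

lemma omega_card (U : Finset α) :
    ((univ.filter (fun ω : α → Fin L => ∀ u ∈ U, ω u ≠ 0)).card : ℝ) =
      (1 - 1 / (L : ℝ)) ^ U.card * (L : ℝ) ^ Fintype.card α := by
  have hL : (0 : ℝ) < L := by exact_mod_cast Nat.pos_of_ne_zero (NeZero.ne L)
  have h1 : univ.filter (fun ω : α → Fin L => ∀ u ∈ U, ω u ≠ 0) =
      Fintype.piFinset (fun a => if a ∈ U then (univ : Finset (Fin L)).erase 0 else univ) := by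
    ext ω
    simp only [mem_filter, mem_univ, true_and, Fintype.mem_piFinset]
    constructor
    · intro h a
      split_ifs with ha
      · simp [h a ha]
      · simp
    · intro h u hu
      have := h u
      rw [if_pos hu] at this
      exact (mem_erase.1 this).1
  rw [h1, Fintype.card_piFinset]
  push_cast
  have h2 : ∀ a : α, (((if a ∈ U then (univ : Finset (Fin L)).erase 0 else univ).card : ℕ) : ℝ) =
      (if a ∈ U then (1 - 1 / (L : ℝ)) else 1) * L := by
    intro a
    split_ifs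
    · rw [card_erase_of_mem (mem_univ _), card_univ, Fintype.card_fin,
        Nat.cast_sub (Nat.pos_of_ne_zero (NeZero.ne L))]
      field_simp; simp
    · simp
  rw [prod_congr rfl (fun a _ => h2 a), prod_mul_distrib, prod_ite_mem, univ_inter]
  simp

lemma nonrigid_card (B : Finset (Perm α)) {x : Perm α} (hx : x ∈ B) (V : Finset α) {θ : ℝ} :
    1 / (B.card : ℝ) ≤ θ ^ (V.filter (fun p => cp B V x p < θ)).card := by
  refine (inv_card_le_prod_cp B hx V).trans ?_
  rw [← prod_filter_mul_prod_filter_not V (fun p => cp B V x p < θ)]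
  have h1 : ∏ p ∈ V.filter (fun p => cp B V x p < θ), cp B V x p ≤
      θ ^ (V.filter (fun p => cp B V x p < θ)).card := by
    rw [← prod_const]
    exact prod_le_prod (fun p _ => cp_nonneg _ _ _ _) (fun p hp => (mem_filter.1 hp).2.le)
  have h2 : ∏ p ∈ V.filter (fun p => ¬ cp B V x p < θ), cp B V x p ≤ 1 :=
    prod_le_one (fun p _ => cp_nonneg _ _ _ _) (fun p _ => cp_le_one _ _ _ _)
  have h3 : 0 ≤ ∏ p ∈ V.filter (fun p => cp B V x p < θ), cp B V x p :=
    prod_nonneg (fun p _ => cp_nonneg _ _ _ _)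
  calc _ ≤ (∏ p ∈ V.filter (fun p => cp B V x p < θ), cp B V x p) * 1 :=
        mul_le_mul_of_nonneg_left h2 h3
    _ ≤ _ := by rw [mul_one]; exact h1

lemma rigSet_card (B : Finset (Perm α)) {x : Perm α} (hx : x ∈ B) {θ δ : ℝ} (hδ : 0 ≤ δ)
    (hJ : ∀ j : ℕ, 1 / (B.card : ℝ) ≤ θ ^ j → (j : ℝ) ≤ (1 - δ / 2) * Fintype.card α)
    (hL : 1 / (L : ℝ) ≤ δ / 4) :
    δ / 8 * Fintype.card α ≤ (rigSet L B θ (δ / 8) x).card := by
  set N : ℝ := (L : ℝ) ^ Fintype.card α with hN
  have hL0 : (0 : ℝ) < L := by exact_mod_cast Nat.pos_of_ne_zero (NeZero.ne L)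
  have hN0 : 0 < N := by positivity
  have h1 : ∑ p : α, ((univ.filter (fun ω : α → Fin L => Rigid B θ x ω p)).card : ℝ) =
      ∑ ω : α → Fin L, ((univ.filter (fun p : α => Rigid B θ x ω p)).card : ℝ) := by
    simp only [card_filter]; push_cast; rw [sum_comm]
  have h2 : ∀ ω : α → Fin L, ((early ω).card : ℝ) - (1 - δ / 2) * Fintype.card α ≤
      ((univ.filter (fun p : α => Rigid B θ x ω p)).card : ℝ) := by
    intro ω
    have h3 := hJ _ (nonrigid_card B hx (early ω) (θ := θ))
    have h4 := card_filter_add_card_filter_not (s := early ω) (fun p => cp B (early ω) x p < θ)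
    have h5 : (early ω).filter (fun p => ¬ cp B (early ω) x p < θ) =
        univ.filter (fun p : α => Rigid B θ x ω p) := by
      ext p; simp [Rigid, early]
    rw [h5] at h4
    have h6 : (((early ω).filter (fun p => cp B (early ω) x p < θ)).card : ℝ) +
      ((univ.filter (fun p : α => Rigid B θ x ω p)).card : ℝ) = (early ω).card := by
      exact_mod_cast h4
    linarith
  have h7 : ∑ ω : α → Fin L, ((early ω).card : ℝ) = Fintype.card α * ((1 - 1 / (L : ℝ)) * N) := by
    have : ∀ p : α, ((univ.filter (fun ω : α → Fin L => ω p ≠ 0)).card : ℝ) = (1 - 1 / (L : ℝ)) * N := by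
      intro p
      have := omega_card (L := L) ({p} : Finset α)
      simpa using this
    rw [← nsmul_eq_mul, ← card_univ, ← sum_const, ← sum_congr rfl (fun p _ => this p)]
    simp only [early, card_filter]; push_cast; rw [sum_comm]
  have h8 : Fintype.card α * (δ / 4) * N ≤
      ∑ p : α, ((univ.filter (fun ω : α → Fin L => Rigid B θ x ω p)).card : ℝ) := by
    rw [h1]
    refine le_trans ?_ (sum_le_sum (fun ω _ => h2 ω))
    rw [sum_sub_distrib, h7, sum_const, nsmul_eq_mul, card_omega, ← hN]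
    have hn : (0 : ℝ) ≤ Fintype.card α := by positivity
    have : (Fintype.card α : ℝ) * N * (1 / L) ≤ Fintype.card α * N * (δ / 4) :=
      mul_le_mul_of_nonneg_left hL (by positivity)
    nlinarith
  have h9 : ∑ p : α, ((univ.filter (fun ω : α → Fin L => Rigid B θ x ω p)).card : ℝ) ≤
      (rigSet L B θ (δ / 8) x).card * N + Fintype.card α * (δ / 8 * N) := by
    have : ∀ p : α, ((univ.filter (fun ω : α → Fin L => Rigid B θ x ω p)).card : ℝ) ≤
        (if p ∈ rigSet L B θ (δ / 8) x then N else 0) + δ / 8 * N := by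
      intro p
      split_ifs with hp
      · have : ((univ.filter (fun ω : α → Fin L => Rigid B θ x ω p)).card : ℝ) ≤ N := by
          rw [hN, ← card_omega]; exact_mod_cast card_filter_le _ _
        have : 0 ≤ δ / 8 * N := by positivity
        linarith
      · simp only [rigSet, mem_filter, mem_univ, true_and, not_le] at hp
        linarith
    refine (sum_le_sum (fun p _ => this p)).trans ?_
    rw [sum_add_distrib, sum_ite_mem, univ_inter]
    simp
  have : δ / 8 * Fintype.card α * N ≤ (rigSet L B θ (δ / 8) x).card * N := by nlinarith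
  exact le_of_mul_le_mul_right this hN0

lemma kill_card (B : Finset (Perm α)) (x : α → α) {θ ρ c : ℝ} {k : ℕ}
    (hk : (1 - 1 / (L : ℝ)) ^ k < ρ / 2) (hc : k * c ≤ ρ / 2) {p : α}
    (hp : p ∈ rigSet L B θ ρ x) : (kill L B θ c x p).card ≤ k := by
  by_contra hlt
  obtain ⟨U, hU, hUk⟩ := exists_subset_card_eq (le_of_lt (not_le.1 hlt))
  set N : ℝ := (L : ℝ) ^ Fintype.card α with hN
  have hL0 : (0 : ℝ) < L := by exact_mod_cast Nat.pos_of_ne_zero (NeZero.ne L)
  have hN0 : 0 < N := by positivity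
  have h1 : ρ * N ≤ ((univ.filter (fun ω : α → Fin L => Rigid B θ x ω p)).card : ℝ) :=
    (mem_filter.1 hp).2
  have hsub : univ.filter (fun ω : α → Fin L => Rigid B θ x ω p) ⊆
      U.biUnion (fun u => univ.filter (fun ω : α → Fin L => Rigid B θ x ω p ∧ ω u = 0)) ∪
      univ.filter (fun ω : α → Fin L => ∀ u ∈ U, ω u ≠ 0) := by
    intro ω hω
    by_cases h : ∀ u ∈ U, ω u ≠ 0
    · exact mem_union_right _ (mem_filter.2 ⟨mem_univ _, h⟩)
    · push Not at h
      obtain ⟨u, hu, hu0⟩ := h
      exact mem_union_left _ (mem_biUnion.2 ⟨u, hu, mem_filter.2 ⟨mem_univ _, (mem_filter.1 hω).2, hu0⟩⟩)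
  have h2 := (card_le_card hsub).trans (card_union_le _ _)
  have h3 := card_biUnion_le (s := U)
    (t := fun u => univ.filter (fun ω : α → Fin L => Rigid B θ x ω p ∧ ω u = 0))
  have h4 : ((∑ u ∈ U, (univ.filter (fun ω : α → Fin L => Rigid B θ x ω p ∧ ω u = 0)).card : ℕ) : ℝ)
      ≤ k * (c * N) := by
    push_cast
    rw [← hUk, ← nsmul_eq_mul, ← sum_const]
    exact sum_le_sum (fun u hu => (mem_filter.1 (hU hu)).2.le)
  have h5 := omega_card (L := L) U
  rw [hUk, ← hN] at h5
  have h6 : ((univ.filter (fun ω : α → Fin L => Rigid B θ x ω p)).card : ℝ) ≤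
      ((∑ u ∈ U, (univ.filter (fun ω : α → Fin L => Rigid B θ x ω p ∧ ω u = 0)).card : ℕ) : ℝ) +
      ((univ.filter (fun ω : α → Fin L => ∀ u ∈ U, ω u ≠ 0)).card : ℝ) := by
    exact_mod_cast h2.trans (Nat.add_le_add_right h3 _)
  have h7 : (1 - 1 / (L : ℝ)) ^ k * N < ρ / 2 * N := mul_lt_mul_of_pos_right hk hN0
  have h8 : k * c * N ≤ ρ / 2 * N := mul_le_mul_of_nonneg_right hc hN0.le
  nlinarith

/-- the free set -/
def freeSet (b : Perm α) (S : Finset α) : Finset α := S.image b ∪ b.supportᶜ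

lemma card_freeSet (b : Perm α) {S : Finset α} (hS : S ⊆ b.support) :
    (freeSet b S).card = S.card + (Fintype.card α - b.support.card) := by
  unfold freeSet
  rw [card_union_of_disjoint, card_image_of_injective _ b.injective, card_compl]
  rw [disjoint_left]
  intro a ha ha2
  obtain ⟨r, hr, rfl⟩ := mem_image.1 ha
  exact (mem_compl.1 ha2) (Perm.apply_mem_support.2 (hS hr))

lemma finish_ratio (b : Perm α) {S : Finset α} (hS : S ⊆ b.support) (P : Perm α → Prop)
    [DecidablePred P] (K g : ℝ) (hK : 0 ≤ K) (hg0 : 0 < g)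
    (hg : g ≤ ((Fintype.card α - b.support.card : ℕ) : ℝ) + 1 ∨ Real.exp 1 * g ≤ S.card)
    (h : ∀ h0 : Perm α, (((symOn (freeSet b S)).filter (fun τ => P (h0 * τ))).card : ℝ) ≤
      K ^ S.card * (((freeSet b S).card - S.card).factorial : ℝ)) :
    ((univ.filter P).card : ℝ) ≤ ((Fintype.card α).factorial : ℝ) * (K / g) ^ S.card := by
  have h1 := card_mul_le_of_cosets (freeSet b S) P _ h
  have hc := card_freeSet b hS
  have h2 := ratio_le (freeSet b S).card S.card (by omega) g hg0.le
    (by rw [hc, Nat.add_sub_cancel_left]; exact hg)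
  have hf : (0 : ℝ) < (((freeSet b S).card - S.card).factorial : ℝ) := by positivity
  have hgs : 0 < g ^ S.card := by positivity
  rw [div_pow, ← mul_div_assoc, le_div_iff₀ hgs]
  have h3 : ((univ.filter P).card : ℝ) * (g ^ S.card * (((freeSet b S).card - S.card).factorial : ℝ))
      ≤ ((univ.filter P).card : ℝ) * ((freeSet b S).card.factorial : ℝ) :=
    mul_le_mul_of_nonneg_left h2 (by positivity)
  have h4 : ((univ.filter P).card : ℝ) * g ^ S.card * (((freeSet b S).card - S.card).factorial : ℝ)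
      ≤ ((Fintype.card α).factorial : ℝ) * K ^ S.card *
        (((freeSet b S).card - S.card).factorial : ℝ) := by nlinarith
  exact le_of_mul_le_mul_right h4 hf

lemma notMem_freeSet (b : Perm α) {S : Finset α} (hS : S ⊆ b.support)
    (hd : Disjoint S (S.image b)) {q : α} (hq : q ∈ S) : q ∉ freeSet b S := by
  intro h
  rcases mem_union.1 h with h | h
  · exact disjoint_left.1 hd hq h
  · exact (mem_compl.1 h) (hS hq)

lemma kill_count (b : Perm α) {S : Finset α} (hS : S ⊆ b.support) (hd : Disjoint S (S.image b))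
    (Kl : α → Finset α) (K g : ℝ) (hK : 0 ≤ K) (hKl : ∀ p, ((Kl p).card : ℝ) ≤ K) (hg0 : 0 < g)
    (hg : g ≤ ((Fintype.card α - b.support.card : ℕ) : ℝ) + 1 ∨ Real.exp 1 * g ≤ S.card) :
    ((univ.filter (fun h : Perm α => ∀ q ∈ S, h (b q) ∈ Kl (h q))).card : ℝ) ≤
      ((Fintype.card α).factorial : ℝ) * (K / g) ^ S.card := by
  apply finish_ratio b hS _ K g hK hg0 hg
  intro h0
  set T := freeSet b S with hT
  set I := (symOn T).filter (fun τ => ∀ q ∈ S, (h0 * τ) (b q) ∈ Kl ((h0 * τ) q)) with hI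
  let f : Perm α → (∀ q ∈ S, α) := fun τ q _ => h0 (τ (b q))
  have hmaps : ∀ τ ∈ I, f τ ∈ S.pi (fun q => Kl (h0 q)) := by
    intro τ hτ
    obtain ⟨h1, h2⟩ := mem_filter.1 hτ
    rw [mem_pi]
    intro q hq
    have := h2 q hq
    simp only [Perm.mul_apply] at this
    rwa [mem_symOn.1 h1 q (notMem_freeSet b hS hd hq)] at this
  have hfib : ∀ φ ∈ S.pi (fun q => Kl (h0 q)), (I.filter (fun τ => f τ = φ)).card ≤
      (T.card - S.card).factorial := by
    intro φ _
    rcases (I.filter (fun τ => f τ = φ)).eq_empty_or_nonempty with h | ⟨τ0, hτ0⟩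
    · rw [h]; simp
    · obtain ⟨h1, h2⟩ := mem_filter.1 hτ0
      have h3 := card_agree_le (T := T) (R := S.image b) subset_union_left (mem_filter.1 h1).1
      rw [card_image_of_injective _ b.injective] at h3
      refine le_trans (card_le_card ?_) h3
      intro τ hτ
      obtain ⟨h4, h5⟩ := mem_filter.1 hτ
      refine mem_filter.2 ⟨(mem_filter.1 h4).1, ?_⟩
      intro r hr
      obtain ⟨q, hq, rfl⟩ := mem_image.1 hr
      have : f τ q hq = f τ0 q hq := by rw [h5, h2]
      exact h0.injective this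
  have h6 := card_le_mul_card_image_of_maps_to hmaps _ hfib
  rw [card_pi] at h6
  have h7 : ((∏ q ∈ S, (Kl (h0 q)).card : ℕ) : ℝ) ≤ K ^ S.card := by
    push_cast
    rw [← prod_const]
    exact prod_le_prod (fun _ _ => by positivity) (fun q _ => hKl _)
  calc (I.card : ℝ) ≤ (((T.card - S.card).factorial * ∏ q ∈ S, (Kl (h0 q)).card : ℕ) : ℝ) := by
        exact_mod_cast h6
    _ ≤ _ := by
        rw [Nat.cast_mul, mul_comm]
        exact mul_le_mul_of_nonneg_right h7 (by positivity)

lemma good_count (B : Finset (Perm α)) (b x' : Perm α) {S : Finset α} (hS : S ⊆ b.support)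
    (ω : α → Fin L) {θ : ℝ} (hθ : 0 < θ) (g : ℝ) (hg0 : 0 < g)
    (hg : g ≤ ((Fintype.card α - b.support.card : ℕ) : ℝ) + 1 ∨ Real.exp 1 * g ≤ S.card) :
    ((univ.filter (fun h : Perm α => ∀ q ∈ S,
        Rigid B θ (x' * h * b * h⁻¹ : Perm α) ω (h q) ∧ ω (h (b q)) = 0)).card : ℝ) ≤
      ((Fintype.card α).factorial : ℝ) * (θ⁻¹ / g) ^ S.card := by
  apply finish_ratio b hS _ θ⁻¹ g (by positivity) hg0 hg
  intro h0
  set T := freeSet b S with hT
  set I := (symOn T).filter (fun τ => ∀ q ∈ S,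
    Rigid B θ (x' * (h0 * τ) * b * (h0 * τ)⁻¹ : Perm α) ω ((h0 * τ) q) ∧
      ω ((h0 * τ) (b q)) = 0) with hI
  rcases I.eq_empty_or_nonempty with hI0 | ⟨τ1, hτ1⟩
  · rw [hI0]; simp only [card_empty, Nat.cast_zero]; positivity
  have hd : Disjoint S (S.image b) := by
    rw [disjoint_left]
    intro a ha ha2
    obtain ⟨r, hr, rfl⟩ := mem_image.1 ha2
    exact ((mem_filter.1 hτ1).2 _ ha).1.1 ((mem_filter.1 hτ1).2 _ hr).2
  have hfix : ∀ τ ∈ I, ∀ q ∈ S, τ q = q := fun τ hτ q hq =>
    mem_symOn.1 (mem_filter.1 hτ).1 q (notMem_freeSet b hS hd hq)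
  -- value at positions outside `h0 S`
  have hval : ∀ τ ∈ I, ∀ p ∈ early ω, p ∉ S.image h0 →
      (x' * (h0 * τ) * b * (h0 * τ)⁻¹ : Perm α) p =
        if h0⁻¹ p ∈ T then x' p else x' (h0 (b (h0⁻¹ p))) := by
    intro τ hτ p hp hpS
    obtain ⟨hτT, hτR⟩ := mem_filter.1 hτ
    simp only [mul_inv_rev, Perm.mul_apply]
    split_ifs with hT0
    · have hv : τ⁻¹ (h0⁻¹ p) ∈ T := symOn_mem (symOn_inv hτT) hT0
      rcases mem_union.1 hv with hv | hv
      · obtain ⟨q, hq, hqe⟩ := mem_image.1 hv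
        have h1 := (hτR q hq).2
        simp only [Perm.mul_apply] at h1
        rw [hqe] at h1
        simp only [Perm.coe_inv, apply_symm_apply] at h1
        exact absurd h1 (mem_filter.1 hp).2
      · have h1 : b (τ⁻¹ (h0⁻¹ p)) = τ⁻¹ (h0⁻¹ p) := Perm.notMem_support.1 (mem_compl.1 hv)
        rw [h1]; simp
    · rw [mem_symOn.1 (symOn_inv hτT) _ hT0]
      have h2 : b (h0⁻¹ p) ∉ T := by
        intro h3
        rcases mem_union.1 h3 with h3 | h3
        · obtain ⟨q, hq, hqe⟩ := mem_image.1 h3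
          have : q = h0⁻¹ p := b.injective hqe
          exact hpS (mem_image.2 ⟨q, hq, by rw [this]; simp⟩)
        · apply hT0
          apply mem_union_right
          rw [mem_compl] at h3 ⊢
          rwa [Perm.apply_mem_support] at h3
      rw [mem_symOn.1 hτT _ h2]
  have hw := weight B (S.image h0) I
    (fun τ => (x' * (h0 * τ) * b * (h0 * τ)⁻¹ : Perm α)) ((T.card - S.card).factorial : ℝ)
    (by positivity) (early ω) (fun _ => 1) (fun _ => zero_le_one)
    (fun i hi j hj p hp hpS => by rw [hval i hi p hp hpS, hval j hj p hp hpS]) ?_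
  · have h8 : ∀ τ ∈ I, θ ^ S.card ≤ 1 * ∏ p ∈ (early ω).filter (fun p => p ∈ S.image h0),
        cp B (early ω) (x' * (h0 * τ) * b * (h0 * τ)⁻¹ : Perm α) p := by
      intro τ hτ
      have e : (early ω).filter (fun p => p ∈ S.image h0) = S.image h0 := by
        apply filter_mem_eq_inter.trans
        apply inter_eq_right.2
        intro p hp
        obtain ⟨q, hq, rfl⟩ := mem_image.1 hp
        have := ((mem_filter.1 hτ).2 q hq).1.1
        simp only [Perm.mul_apply, hfix τ hτ q hq] at this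
        exact mem_filter.2 ⟨mem_univ _, this⟩
      rw [one_mul, e, ← card_image_of_injective S h0.injective, ← prod_const]
      apply prod_le_prod (fun _ _ => hθ.le)
      intro p hp
      obtain ⟨q, hq, rfl⟩ := mem_image.1 hp
      have := ((mem_filter.1 hτ).2 q hq).1.2
      simpa only [Perm.mul_apply (f := h0) (g := τ), hfix τ hτ q hq] using this
    have h9 := (sum_le_sum h8).trans hw
    rw [sum_const, nsmul_eq_mul] at h9
    rw [inv_pow, inv_mul_eq_div, le_div_iff₀ (by positivity)]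
    exact h9
  · intro τ0 hτ0
    rw [sum_const, nsmul_eq_mul, mul_one]
    have h3 := card_agree_le (T := T) (R := S.image b) subset_union_left (mem_filter.1 hτ0).1
    rw [card_image_of_injective _ b.injective] at h3
    refine Nat.cast_le.2 (le_trans (card_le_card ?_) h3)
    intro τ hτ
    obtain ⟨h4, h5⟩ := mem_filter.1 hτ
    refine mem_filter.2 ⟨(mem_filter.1 h4).1, ?_⟩
    intro r hr
    obtain ⟨q, hq, rfl⟩ := mem_image.1 hr
    have hqe : h0 q ∈ early ω := by
      have := ((mem_filter.1 hτ0).2 q hq).1.1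
      simp only [Perm.mul_apply, hfix τ0 hτ0 q hq] at this
      exact mem_filter.2 ⟨mem_univ _, this⟩
    have h6 := h5 _ hqe
    have e1 : τ⁻¹ q = q := by rw [Perm.inv_eq_iff_eq]; exact (hfix τ h4 q hq).symm
    have e2 : τ0⁻¹ q = q := by rw [Perm.inv_eq_iff_eq]; exact (hfix τ0 hτ0 q hq).symm
    have e0 : h0⁻¹ (h0 q) = q := by simp
    simp only [mul_inv_rev, Perm.mul_apply, e0, e1, e2] at h6
    exact h0.injective (x'.injective h6)

end Pool.Agent.H174Z.Grow
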