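import Mathlib
import Pool.Agent.H174Z.Grow.Rigid

set_option autoImplicit false
set_option linter.unusedSectionVars false

namespace Pool.Agent.H174Z.Grow

open Finset Equiv

variable {α : Type} [Fintype α] [LinearOrder α] {L : ℕ} [NeZero L]

lemma card_filter_prod (B : Finset (Perm α)) (Q : Perm α × Perm α → Prop) [DecidablePred Q] :
    (((B ×ˢ (univ : Finset (Perm α))).filter Q).card : ℝ) =
      ∑ x ∈ B, ((univ.filter (fun h => Q (x, h))).card : ℝ) := by
  simp only [card_filter]; push_cast; rw [sum_product]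

lemma many_omega (B : Finset (Perm α)) (b h : Perm α) (x : α → α) {θ c τ : ℝ} (hc : 0 < c)
    (hτ : 0 < τ) (G : Finset α) (hG : G ⊆ b.support) (hτG : τ / 2 ≤ G.card)
    (hk : ∀ q ∈ G, h (b q) ∉ kill L B θ c x (h q)) :
    c / 2 * (L : ℝ) ^ Fintype.card α ≤
      ((univ.filter (fun ω : α → Fin L => ∃ S ∈ powersetCard ⌈c * τ / 4⌉₊ b.support,
        ∀ q ∈ S, Rigid B θ x ω (h q) ∧ ω (h (b q)) = 0)).card : ℝ) := by
  set N : ℝ := (L : ℝ) ^ Fintype.card α with hN
  set Good := univ.filter (fun ω : α → Fin L => ∃ S ∈ powersetCard ⌈c * τ / 4⌉₊ b.support,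
        ∀ q ∈ S, Rigid B θ x ω (h q) ∧ ω (h (b q)) = 0) with hGood
  have hG0 : (0 : ℝ) < G.card := by linarith
  have h1 : ∑ ω : α → Fin L, ((G.filter (fun q => Rigid B θ x ω (h q) ∧ ω (h (b q)) = 0)).card : ℝ)
      = ∑ q ∈ G, ((univ.filter (fun ω : α → Fin L =>
          Rigid B θ x ω (h q) ∧ ω (h (b q)) = 0)).card : ℝ) := by
    simp only [card_filter]; push_cast; rw [sum_comm]
  have h2 : G.card * (c * N) ≤ ∑ q ∈ G, ((univ.filter (fun ω : α → Fin L =>
          Rigid B θ x ω (h q) ∧ ω (h (b q)) = 0)).card : ℝ) := by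
    rw [← nsmul_eq_mul, ← sum_const]
    apply sum_le_sum
    intro q hq
    have := hk q hq
    simp only [kill, mem_filter, mem_univ, true_and, not_lt] at this
    exact this
  have h3 : ∀ ω : α → Fin L,
      ((G.filter (fun q => Rigid B θ x ω (h q) ∧ ω (h (b q)) = 0)).card : ℝ) ≤
        (if ω ∈ Good then (G.card : ℝ) else 0) + c * G.card / 2 := by
    intro ω
    split_ifs with hω
    · have : ((G.filter (fun q => Rigid B θ x ω (h q) ∧ ω (h (b q)) = 0)).card : ℝ) ≤ G.card := by
        exact_mod_cast card_filter_le _ _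
      have : 0 ≤ c * G.card / 2 := by positivity
      linarith
    · by_contra hlt
      apply hω
      have h4 : ⌈c * τ / 4⌉₊ ≤ (G.filter (fun q => Rigid B θ x ω (h q) ∧ ω (h (b q)) = 0)).card := by
        rw [Nat.ceil_le]
        have : c * (τ / 2) ≤ c * G.card := mul_le_mul_of_nonneg_left hτG hc.le
        push Not at hlt
        linarith
      obtain ⟨S, hS, hSc⟩ := exists_subset_card_eq h4
      refine mem_filter.2 ⟨mem_univ _, S, mem_powersetCard.2 ⟨?_, hSc⟩, ?_⟩
      · exact hS.trans ((filter_subset _ _).trans hG)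
      · intro q hq; exact (mem_filter.1 (hS hq)).2
  have h5 := sum_le_sum (fun ω (_ : ω ∈ (univ : Finset (α → Fin L))) => h3 ω)
  rw [h1, sum_add_distrib, sum_ite_mem, univ_inter, sum_const, sum_const, nsmul_eq_mul,
    nsmul_eq_mul, card_omega, ← hN] at h5
  have h6 : c / 2 * N * G.card ≤ Good.card * G.card := by nlinarith
  exact le_of_mul_le_mul_right h6 hG0

lemma far1 (B : Finset (Perm α)) (b : Perm α) {θ ρ c K g τ : ℝ} {k : ℕ} (hθ : 0 < θ)
    (hc : 0 < c) (hc1 : c ≤ 2 / 3) (hk : (1 - 1 / (L : ℝ)) ^ k < ρ / 2) (hkc : k * c ≤ ρ / 2)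
    (hK1 : θ⁻¹ ≤ K) (hK2 : (k : ℝ) ≤ K) (hg0 : 0 < g) (hτ : 0 < τ)
    (hg : g ≤ ((Fintype.card α - b.support.card : ℕ) : ℝ) + 1 ∨
      Real.exp 1 * g ≤ (⌈c * τ / 4⌉₊ : ℕ)) :
    (((B ×ˢ (univ : Finset (Perm α))).filter (fun xh => xh.1 * xh.2 * b⁻¹ * xh.2⁻¹ ∈ B ∧
      τ ≤ ((b.support.filter (fun q => xh.2 q ∈ rigSet L B θ ρ xh.1)).card : ℝ))).card : ℝ) ≤
      (2 / c + 1) * (2 ^ b.support.card * (B.card * (((Fintype.card α).factorial : ℝ) *
        (K / g) ^ ⌈c * τ / 4⌉₊))) := by
  set s := ⌈c * τ / 4⌉₊ with hs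
  set N : ℝ := (L : ℝ) ^ Fintype.card α with hN
  set Z : ℝ := ((Fintype.card α).factorial : ℝ) * (K / g) ^ s with hZ
  have hL0 : (0 : ℝ) < L := by exact_mod_cast Nat.pos_of_ne_zero (NeZero.ne L)
  have hN0 : 0 < N := by positivity
  have hK0 : 0 ≤ K := le_trans (by positivity) hK2
  have hZ0 : 0 ≤ Z := by positivity
  let Kl : Perm α → α → Finset α := fun x p =>
    if p ∈ rigSet L B θ ρ x then kill L B θ c x p else ∅
  have hKl : ∀ x p, ((Kl x p).card : ℝ) ≤ K := by
    intro x p
    simp only [Kl]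
    split_ifs with hp
    · exact le_trans (by exact_mod_cast kill_card B x hk hkc hp) hK2
    · simpa using hK0
  set BadG := (B ×ˢ (univ : Finset (Perm α))).filter (fun xh => xh.1 * xh.2 * b⁻¹ * xh.2⁻¹ ∈ B ∧
    c / 2 * N ≤ ((univ.filter (fun ω : α → Fin L => ∃ S ∈ powersetCard s b.support,
        ∀ q ∈ S, Rigid B θ xh.1 ω (xh.2 q) ∧ ω (xh.2 (b q)) = 0)).card : ℝ)) with hBadG
  set PS := (powersetCard s b.support).filter (fun S => Disjoint S (S.image b)) with hPS
  set BadK := PS.biUnion (fun S => (B ×ˢ (univ : Finset (Perm α))).filter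
    (fun xh => ∀ q ∈ S, xh.2 (b q) ∈ Kl xh.1 (xh.2 q))) with hBadK
  have hpow : ((powersetCard s b.support).card : ℝ) ≤ 2 ^ b.support.card := by
    have : (powersetCard s b.support).card ≤ b.support.powerset.card :=
      card_le_card (fun S hS => mem_powerset.2 (mem_powersetCard.1 hS).1)
    rw [card_powerset] at this
    exact_mod_cast this
  have hsub : (B ×ˢ (univ : Finset (Perm α))).filter (fun xh => xh.1 * xh.2 * b⁻¹ * xh.2⁻¹ ∈ B ∧
      τ ≤ ((b.support.filter (fun q => xh.2 q ∈ rigSet L B θ ρ xh.1)).card : ℝ)) ⊆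
      BadG ∪ BadK := by
    rintro ⟨x, h⟩ hxh
    obtain ⟨hm, hret, ht⟩ := mem_filter.1 hxh
    simp only at hret ht
    set T := b.support.filter (fun q => h q ∈ rigSet L B θ ρ x) with hT
    have h7 := card_filter_add_card_filter_not (s := T)
      (fun q => h (b q) ∈ kill L B θ c x (h q))
    have h8 : ((T.filter (fun q => h (b q) ∈ kill L B θ c x (h q))).card : ℝ) +
      (T.filter (fun q => h (b q) ∉ kill L B θ c x (h q))).card = T.card := by exact_mod_cast h7
    by_cases hcase : τ / 2 ≤ ((T.filter (fun q => h (b q) ∉ kill L B θ c x (h q))).card : ℝ)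
    · apply mem_union_left
      refine mem_filter.2 ⟨hm, hret, ?_⟩
      exact many_omega B b h x hc hτ _ ((filter_subset _ _).trans (filter_subset _ _)) hcase
        (fun q hq => (mem_filter.1 hq).2)
    · apply mem_union_right
      obtain ⟨S0, hS0, hd0, hc0⟩ := exists_indep b
        (T.filter (fun q => h (b q) ∈ kill L B θ c x (h q)))
        (fun q hq => Perm.mem_support.1 (mem_filter.1 (mem_filter.1 hq).1).1)
      have h9 : s ≤ S0.card := by
        rw [hs, Nat.ceil_le]
        have : ((T.filter (fun q => h (b q) ∈ kill L B θ c x (h q))).card : ℝ) ≤ 3 * S0.card := by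
          exact_mod_cast hc0
        have : c * τ ≤ 2 / 3 * τ := mul_le_mul_of_nonneg_right hc1 hτ.le
        push Not at hcase
        linarith
      obtain ⟨S, hS, hSc⟩ := exists_subset_card_eq h9
      refine mem_biUnion.2 ⟨S, mem_filter.2 ⟨mem_powersetCard.2 ⟨?_, hSc⟩, ?_⟩,
        mem_filter.2 ⟨hm, ?_⟩⟩
      · exact hS.trans (hS0.trans ((filter_subset _ _).trans (filter_subset _ _)))
      · exact Disjoint.mono hS (image_subset_image hS) hd0
      · intro q hq
        have h10 := mem_filter.1 (hS0 (hS hq))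
        simp only [Kl]
        rw [if_pos (mem_filter.1 h10.1).2]
        exact h10.2
  have hK : (BadK.card : ℝ) ≤ 2 ^ b.support.card * (B.card * Z) := by
    have h1 := card_biUnion_le (s := PS) (t := fun S => (B ×ˢ (univ : Finset (Perm α))).filter
      (fun xh => ∀ q ∈ S, xh.2 (b q) ∈ Kl xh.1 (xh.2 q)))
    calc (BadK.card : ℝ) ≤ ∑ S ∈ PS, (((B ×ˢ (univ : Finset (Perm α))).filter
          (fun xh => ∀ q ∈ S, xh.2 (b q) ∈ Kl xh.1 (xh.2 q))).card : ℝ) := by exact_mod_cast h1
      _ ≤ ∑ _S ∈ PS, B.card * Z := by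
          apply sum_le_sum
          intro S hS
          obtain ⟨hS1, hS2⟩ := mem_filter.1 hS
          obtain ⟨hS3, hS4⟩ := mem_powersetCard.1 hS1
          rw [card_filter_prod, ← nsmul_eq_mul, ← sum_const]
          apply sum_le_sum
          intro x _
          have := kill_count b hS3 hS2 (Kl x) K g hK0 (hKl x) hg0 (by rw [hS4]; exact hg)
          rw [hS4] at this
          exact this
      _ ≤ _ := by
          rw [sum_const, nsmul_eq_mul]
          apply mul_le_mul_of_nonneg_right _ (by positivity)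
          refine le_trans ?_ hpow
          exact_mod_cast card_filter_le _ _
  have hG : (BadG.card : ℝ) ≤ 2 / c * (2 ^ b.support.card * (B.card * Z)) := by
    have h1 : BadG.card * (c / 2 * N) ≤ ∑ xh ∈ BadG, ∑ ω : α → Fin L,
        ∑ S ∈ powersetCard s b.support,
          (if (∀ q ∈ S, Rigid B θ xh.1 ω (xh.2 q) ∧ ω (xh.2 (b q)) = 0) then (1 : ℝ) else 0) := by
      rw [← nsmul_eq_mul, ← sum_const]
      apply sum_le_sum
      intro xh hxh
      refine (mem_filter.1 hxh).2.2.trans ?_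
      rw [card_filter]
      push_cast
      apply sum_le_sum
      intro ω _
      split_ifs with hω
      · obtain ⟨S, hS, hS2⟩ := hω
        refine le_trans ?_ (single_le_sum (f := fun S =>
          (if (∀ q ∈ S, Rigid B θ xh.1 ω (xh.2 q) ∧ ω (xh.2 (b q)) = 0) then (1 : ℝ) else 0))
          (fun S _ => by positivity) hS)
        rw [if_pos hS2]
      · exact sum_nonneg (fun S _ => by positivity)
    have h2 : ∀ ω : α → Fin L, ∀ S ∈ powersetCard s b.support, ∑ xh ∈ BadG,
        (if (∀ q ∈ S, Rigid B θ xh.1 ω (xh.2 q) ∧ ω (xh.2 (b q)) = 0) then (1 : ℝ) else 0) ≤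
        B.card * Z := by
      intro ω S hS
      obtain ⟨hS3, hS4⟩ := mem_powersetCard.1 hS
      rw [sum_boole]
      have h3 : (BadG.filter (fun xh =>
          ∀ q ∈ S, Rigid B θ xh.1 ω (xh.2 q) ∧ ω (xh.2 (b q)) = 0)).card ≤
          ((B ×ˢ (univ : Finset (Perm α))).filter (fun xh => ∀ q ∈ S,
            Rigid B θ (xh.1 * xh.2 * b * xh.2⁻¹ : Perm α) ω (xh.2 q) ∧ ω (xh.2 (b q)) = 0)).card := by
        apply card_le_card_of_injOn (fun xh => (xh.1 * xh.2 * b⁻¹ * xh.2⁻¹, xh.2))
        · rintro ⟨x, h⟩ hxh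
          simp only [coe_filter, Set.mem_ofPred_eq] at hxh ⊢
          obtain ⟨h4, h5⟩ := hxh
          refine ⟨mem_product.2 ⟨(mem_filter.1 h4).2.1, mem_univ _⟩, ?_⟩
          have e : x * h * b⁻¹ * h⁻¹ * h * b * h⁻¹ = x := by group
          rw [e]; exact h5
        · rintro ⟨x, h⟩ _ ⟨x', h'⟩ _ hxx
          simp only [Prod.mk.injEq] at hxx ⊢
          obtain ⟨h4, rfl⟩ := hxx
          exact ⟨by simpa using h4, rfl⟩
      refine le_trans (Nat.cast_le.2 h3) ?_
      rw [card_filter_prod, ← nsmul_eq_mul, ← sum_const]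
      apply sum_le_sum
      intro x' _
      have := good_count B b x' hS3 ω hθ g hg0 (by rw [hS4]; exact hg)
      rw [hS4] at this
      refine this.trans ?_
      rw [hZ]
      gcongr
    rw [sum_comm] at h1
    have h3 : ∑ ω : α → Fin L, ∑ xh ∈ BadG, ∑ S ∈ powersetCard s b.support,
          (if (∀ q ∈ S, Rigid B θ xh.1 ω (xh.2 q) ∧ ω (xh.2 (b q)) = 0) then (1 : ℝ) else 0) ≤
        ∑ _ω : α → Fin L, 2 ^ b.support.card * (B.card * Z) := by
      apply sum_le_sum
      intro ω _
      rw [sum_comm]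
      refine (sum_le_sum (h2 ω)).trans ?_
      rw [sum_const, nsmul_eq_mul]
      exact mul_le_mul_of_nonneg_right hpow (by positivity)
    rw [sum_const, nsmul_eq_mul, card_omega, ← hN] at h3
    have h4 : BadG.card * (c / 2) * N ≤ 2 ^ b.support.card * (B.card * Z) * N := by nlinarith
    have h5 := le_of_mul_le_mul_right h4 hN0
    rw [div_mul_eq_mul_div, le_div_iff₀ hc]
    linarith
  have h6 := (card_le_card hsub).trans (card_union_le _ _)
  have h7 : (((B ×ˢ (univ : Finset (Perm α))).filter (fun xh => xh.1 * xh.2 * b⁻¹ * xh.2⁻¹ ∈ B ∧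
      τ ≤ ((b.support.filter (fun q => xh.2 q ∈ rigSet L B θ ρ xh.1)).card : ℝ))).card : ℝ) ≤
      BadG.card + BadK.card := by exact_mod_cast h6
  linarith

/-- The rigidity theorem. -/
theorem rigidity {δ : ℝ} (hδ0 : 0 < δ) (hδ1 : δ ≤ 1) :
    ∃ a : ℝ, 0 < a ∧ ∃ C : ℝ, 0 < C ∧ ∃ n0 : ℕ, ∀ (α : Type) [Fintype α] [LinearOrder α],
      n0 ≤ Fintype.card α → ∀ B : Finset (Perm α),
      (B.card : ℝ) ≤ Real.exp ((1 - δ) * Fintype.card α * Real.log (Fintype.card α)) →
      ∃ F : Perm α → Finset α, (∀ x ∈ B, δ / 8 * Fintype.card α ≤ (F x).card) ∧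
        ∀ (b : Perm α) (m : ℕ), 1 ≤ m →
          (((B ×ˢ (univ : Finset (Perm α))).filter (fun xh => xh.1 * xh.2 * b⁻¹ * xh.2⁻¹ ∈ B ∧
            m ≤ (b.support.filter (fun q => xh.2 q ∈ F xh.1)).card)).card : ℝ) ≤
          C * (B.card * (((Fintype.card α).factorial : ℝ) *
            Real.exp (-(a * m * Real.log (Fintype.card α))))) := by
  set L := ⌈4 / δ⌉₊ with hLdef
  have hL4 : 4 / δ ≤ (L : ℝ) := Nat.le_ceil _
  have hL0 : (0 : ℝ) < L := lt_of_lt_of_le (by positivity) hL4
  have hLne : NeZero L := ⟨by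
    intro h; rw [h] at hL0; simp at hL0⟩
  have hL : 1 / (L : ℝ) ≤ δ / 4 := by
    rw [div_le_iff₀ hL0]
    rw [div_le_iff₀ hδ0] at hL4
    linarith
  obtain ⟨k, hk⟩ := exists_pow_lt_of_lt_one (show 0 < δ / 8 / 2 by positivity)
    (show 1 - 1 / (L : ℝ) < 1 by have : 0 < 1 / (L : ℝ) := by positivity
                                 linarith)
  set c : ℝ := δ / 16 / (k + 1) with hcdef
  have hc : 0 < c := by positivity
  have hkc1 : (k + 1) * c = δ / 16 := by rw [hcdef]; field_simp
  have hk0 : (0 : ℝ) ≤ k := by positivity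
  have hkc : k * c ≤ δ / 8 / 2 := by nlinarith
  have hc1 : c ≤ 2 / 3 := by nlinarith
  set β : ℝ := 96 / (δ * c) with hβ
  have hβ0 : 0 < β := by positivity
  have hβe : δ * c * β = 96 := by rw [hβ]; field_simp
  set R : ℝ := 32 * β / δ + 4 * (k + 1) / δ with hR
  refine ⟨min (δ * c / 32) (δ / 32 / β), by positivity, 2 / c + 2, by positivity,
    ⌈Real.exp R⌉₊, ?_⟩
  intro α _ _ hn B hB
  set n : ℝ := ((Fintype.card α : ℕ) : ℝ) with hndef
  set ℓ := Real.log n with hℓ
  have hnR : Real.exp R ≤ n := (Nat.le_ceil _).trans (Nat.cast_le.2 hn)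
  have hn0 : 0 < n := lt_of_lt_of_le (Real.exp_pos _) hnR
  have hℓR : R ≤ ℓ := (Real.le_log_iff_exp_le hn0).2 hnR
  have hR1 : 0 < 32 * β / δ := by positivity
  have hR2 : 0 < 4 * ((k : ℝ) + 1) / δ := by positivity
  have hℓ0 : 0 < ℓ := by linarith
  have hexpℓ : Real.exp ℓ = n := Real.exp_log hn0
  have hℓ1 : 32 * β ≤ δ * ℓ := by
    have : 32 * β / δ ≤ ℓ := by linarith
    rw [div_le_iff₀ hδ0] at this; linarith
  have hℓ2 : (k : ℝ) + 1 ≤ δ / 4 * ℓ := by
    have : 4 * ((k : ℝ) + 1) / δ ≤ ℓ := by linarith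
    rw [div_le_iff₀ hδ0] at this; linarith
  have hE : (k : ℝ) + 2 ≤ Real.exp (δ / 4 * ℓ) := by
    have := Real.add_one_le_exp (δ / 4 * ℓ); linarith
  set θ := Real.exp (-((1 - δ / 2) * ℓ)) with hθ
  have hθ0 : 0 < θ := Real.exp_pos _
  refine ⟨fun x => rigSet L B θ (δ / 8) x, ?_, ?_⟩
  · intro x hx
    apply rigSet_card B hx hδ0.le _ hL
    intro j hj
    have hB0 : (0 : ℝ) < B.card := by exact_mod_cast card_pos.2 ⟨x, hx⟩
    have h1 : Real.exp (-((1 - δ) * n * ℓ)) ≤ 1 / (B.card : ℝ) := by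
      rw [Real.exp_neg, ← one_div]
      exact one_div_le_one_div_of_le hB0 hB
    have h2 := h1.trans hj
    rw [hθ, ← Real.exp_nat_mul, Real.exp_le_exp] at h2
    have h3 : (1 - δ / 2) * j * ℓ ≤ (1 - δ) * n * ℓ := by linarith
    have h4 := le_of_mul_le_mul_right h3 hℓ0
    have h5 : (1 - δ / 2) * j ≤ (1 - δ / 2) * ((1 - δ / 2) * n) := by
      have : 0 ≤ δ * δ * n := by positivity
      linarith
    exact le_of_mul_le_mul_left h5 (by linarith)
  · intro b m hm
    set d : ℝ := ((b.support.card : ℕ) : ℝ) with hd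
    have hd0 : 0 ≤ d := by positivity
    have hm1 : (1 : ℝ) ≤ m := by exact_mod_cast hm
    set τ := max (m : ℝ) (β * d / ℓ) with hτ
    have hτ0 : 0 < τ := lt_of_lt_of_le (by linarith) (le_max_left _ _)
    have hτ1 : (m : ℝ) ≤ τ := le_max_left _ _
    have hτ2 : β * d ≤ τ * ℓ := by
      have : β * d / ℓ ≤ τ := le_max_right _ _
      rwa [div_le_iff₀ hℓ0] at this
    set K := Real.exp ((1 - δ / 2) * ℓ) with hK
    set g := Real.exp ((1 - δ / 4) * ℓ) with hg
    have hgn : g * Real.exp (δ / 4 * ℓ) = n := by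
      rw [hg, ← Real.exp_add, ← hexpℓ]; congr 1; ring
    have hg0 : 0 < g := Real.exp_pos _
    have hs : c * τ / 4 ≤ (⌈c * τ / 4⌉₊ : ℕ) := Nat.le_ceil _
    have hf := far1 (L := L) B b (θ := θ) (ρ := δ / 8) (c := c) (K := K) (g := g) (τ := τ) (k := k)
      hθ0 hc hc1 hk hkc (by rw [hθ, hK, ← Real.exp_neg, neg_neg])
      (by
        have : Real.exp (δ / 4 * ℓ) ≤ K := Real.exp_le_exp.2 (mul_le_mul_of_nonneg_right (by linarith) hℓ0.le)
        linarith) hg0 hτ0
      (by
        by_cases hdn : d ≤ n / 2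
        · left
          rw [Nat.cast_sub (card_le_univ _)]
          have : g * 2 ≤ g * Real.exp (δ / 4 * ℓ) :=
            mul_le_mul_of_nonneg_left (by linarith) hg0.le
          linarith
        · right
          push Not at hdn
          refine le_trans ?_ hs
          have he : Real.exp 1 ≤ 3 := by have := Real.exp_one_lt_d9; linarith
          have h1 : δ / 4 * ℓ ≤ Real.exp (δ / 4 * ℓ) := by
            have := Real.add_one_le_exp (δ / 4 * ℓ); linarith
          have h2 : g * (δ / 4 * ℓ) ≤ n := by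
            rw [← hgn]; exact mul_le_mul_of_nonneg_left h1 hg0.le
          have h3 : β * (n / 2) ≤ τ * ℓ := le_trans (mul_le_mul_of_nonneg_left hdn.le hβ0.le) hτ2
          have h4 : δ * c * (β * (n / 2)) ≤ δ * c * (τ * ℓ) :=
            mul_le_mul_of_nonneg_left h3 (by positivity)
          have h5 : 48 * n ≤ δ * c * (τ * ℓ) := by
            have : δ * c * (β * (n / 2)) = 48 * n := by
              rw [← mul_assoc, hβe]; ring
            linarith
          have h6 : 3 * g * (δ * ℓ) ≤ c * τ / 4 * (δ * ℓ) := by linarith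
          have h7 := le_of_mul_le_mul_right h6 (by positivity)
          have h8 := mul_le_mul_of_nonneg_right he hg0.le
          linarith)
    set a := min (δ * c / 32) (δ / 32 / β) with ha
    have ha1 : a ≤ δ * c / 32 := min_le_left _ _
    have ha2 : a ≤ δ / 32 / β := min_le_right _ _
    have ha0 : 0 < a := by positivity
    set W := (B.card : ℝ) * (((Fintype.card α).factorial : ℝ) * Real.exp (-(a * m * ℓ))) with hW
    have hb1 : (2 : ℝ) ^ b.support.card * (K / g) ^ ⌈c * τ / 4⌉₊ ≤ Real.exp (-(a * m * ℓ)) := by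
      have e1 : K / g = Real.exp (-(δ / 4 * ℓ)) := by
        rw [hK, hg, ← Real.exp_sub]; congr 1; ring
      have e2 : (2 : ℝ) ^ b.support.card ≤ Real.exp d := by
        rw [hd, ← mul_one (b.support.card : ℝ), Real.exp_nat_mul]
        apply pow_le_pow_left₀ (by norm_num)
        have := Real.add_one_le_exp 1; linarith
      rw [e1, ← Real.exp_nat_mul]
      refine (mul_le_mul_of_nonneg_right e2 (Real.exp_pos _).le).trans ?_
      rw [← Real.exp_add, Real.exp_le_exp]
      have h1 : c * τ / 4 * (δ / 4 * ℓ) ≤ (⌈c * τ / 4⌉₊ : ℕ) * (δ / 4 * ℓ) :=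
        mul_le_mul_of_nonneg_right hs (by positivity)
      have h2 : δ * c * (β * d) ≤ δ * c * (τ * ℓ) := mul_le_mul_of_nonneg_left hτ2 (by positivity)
      have h3 : δ * c * (β * d) = 96 * d := by rw [← mul_assoc, hβe]
      have h4 : a * m * ℓ ≤ δ * c / 32 * τ * ℓ := by gcongr
      linarith
    have hf2 : (2 / c + 1) * (2 ^ b.support.card * (B.card * (((Fintype.card α).factorial : ℝ) *
        (K / g) ^ ⌈c * τ / 4⌉₊))) ≤ (2 / c + 1) * W := by
      apply mul_le_mul_of_nonneg_left _ (by positivity)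
      calc _ = (B.card : ℝ) * (((Fintype.card α).factorial : ℝ) *
            ((2 : ℝ) ^ b.support.card * (K / g) ^ ⌈c * τ / 4⌉₊)) := by ring
        _ ≤ W := by rw [hW]; gcongr
    set Bad2 := (B ×ˢ (univ : Finset (Perm α))).filter (fun xh => (m : ℝ) * ℓ ≤ β * d ∧
      ((b.support.filter (fun q => xh.2 q ∈ rigSet L B θ (δ / 8) xh.1)).card : ℝ) ≤
        δ / 8 / 4 * b.support.card) with hBad2
    have hb2 : (Bad2.card : ℝ) ≤ W := by
      by_cases hmd : (m : ℝ) * ℓ ≤ β * d
      · rw [hBad2, card_filter_prod, hW, ← nsmul_eq_mul B.card, ← sum_const]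
        apply sum_le_sum
        intro x hx
        have hF : δ / 8 * Fintype.card α ≤ (rigSet L B θ (δ / 8) x).card := by
          apply rigSet_card B hx hδ0.le _ hL
          intro j hj
          have hB0 : (0 : ℝ) < B.card := by exact_mod_cast card_pos.2 ⟨x, hx⟩
          have h1 : Real.exp (-((1 - δ) * n * ℓ)) ≤ 1 / (B.card : ℝ) := by
            rw [Real.exp_neg, ← one_div]
            exact one_div_le_one_div_of_le hB0 hB
          have h2 := h1.trans hj
          rw [hθ, ← Real.exp_nat_mul, Real.exp_le_exp] at h2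
          have h3 : (1 - δ / 2) * j * ℓ ≤ (1 - δ) * n * ℓ := by linarith
          have h4 := le_of_mul_le_mul_right h3 hℓ0
          have h5 : (1 - δ / 2) * j ≤ (1 - δ / 2) * ((1 - δ / 2) * n) := by
            have : 0 ≤ δ * δ * n := by positivity
            linarith
          exact le_of_mul_le_mul_left h5 (by linarith)
        have h1 := card_few_hits (rigSet L B θ (δ / 8) x) (δ / 8) (by positivity) (by linarith) hF
          b.support
        simp only [hmd, true_and]
        refine h1.trans ?_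
        rw [mul_comm]
        apply mul_le_mul_of_nonneg_left _ (by positivity)
        rw [Real.exp_le_exp, ← hd]
        have h2 : a * (m * ℓ) ≤ δ / 32 / β * (β * d) := by gcongr
        have h3 : δ / 32 / β * (β * d) = δ / 32 * d := by field_simp
        linarith
      · have : Bad2 = ∅ := by
          rw [hBad2]; simp [hmd]
        rw [this, hW]; simp only [card_empty, Nat.cast_zero]; positivity
    have hsub : (B ×ˢ (univ : Finset (Perm α))).filter (fun xh => xh.1 * xh.2 * b⁻¹ * xh.2⁻¹ ∈ B ∧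
            m ≤ (b.support.filter (fun q => xh.2 q ∈ rigSet L B θ (δ / 8) xh.1)).card) ⊆
        (B ×ˢ (univ : Finset (Perm α))).filter (fun xh => xh.1 * xh.2 * b⁻¹ * xh.2⁻¹ ∈ B ∧
      τ ≤ ((b.support.filter (fun q => xh.2 q ∈ rigSet L B θ (δ / 8) xh.1)).card : ℝ)) ∪ Bad2 := by
      intro xh hxh
      obtain ⟨h1, h2, h3⟩ := mem_filter.1 hxh
      by_cases ht : τ ≤ ((b.support.filter (fun q => xh.2 q ∈ rigSet L B θ (δ / 8) xh.1)).card : ℝ)
      · exact mem_union_left _ (mem_filter.2 ⟨h1, h2, ht⟩)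
      · apply mem_union_right
        push Not at ht
        have h4 : (m : ℝ) ≤
          ((b.support.filter (fun q => xh.2 q ∈ rigSet L B θ (δ / 8) xh.1)).card : ℝ) := by
          exact_mod_cast h3
        set t : ℝ := ((b.support.filter (fun q => xh.2 q ∈ rigSet L B θ (δ / 8) xh.1)).card : ℝ)
        have h5 : t < β * d / ℓ := by
          rcases lt_max_iff.1 ht with h | h
          · linarith
          · exact h
        rw [lt_div_iff₀ hℓ0] at h5
        have h40 := mul_le_mul_of_nonneg_right h4 hℓ0.le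
        refine mem_filter.2 ⟨h1, by linarith, ?_⟩
        rw [← hd]
        have h41 := mul_le_mul_of_nonneg_right hℓ1 hd0
        have h6 : t * ℓ ≤ δ / 8 / 4 * d * ℓ := by linarith
        exact le_of_mul_le_mul_right h6 hℓ0
    have h6 := (card_le_card hsub).trans (card_union_le _ _)
    have h7 := (Nat.cast_le (α := ℝ)).2 h6
    push_cast at h7
    have hW0 : (2 / c + 2) * W = (2 / c + 1) * W + W := by ring
    rw [hW0]
    linarith

end Pool.Agent.H174Z.Grow
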