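import Mathlib
import Pool.Agent.H174Z.Grow.Far

set_option autoImplicit false
set_option linter.unusedSectionVars false

namespace Pool.Agent.H174Z.Grow

open Finset Equiv

variable {α : Type} [Fintype α] [LinearOrder α]

/-- the product set `B h A⁻¹ h⁻¹` -/
def prodSet (B A : Finset (Perm α)) (h : Perm α) : Finset (Perm α) :=
  (B ×ˢ A).image (fun xy => xy.1 * h * xy.2⁻¹ * h⁻¹)

def pull (h : Perm α) (F : Finset α) : Finset α := univ.filter (fun j => h j ∈ F)

lemma markov {ι : Type} (s : Finset ι) (f : ι → ℝ) (hf : ∀ i, 0 ≤ f i) (t : ℝ) :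
    ((s.filter (fun i => t ≤ f i)).card : ℝ) * t ≤ ∑ i ∈ s, f i := by
  calc ((s.filter (fun i => t ≤ f i)).card : ℝ) * t = ∑ _i ∈ s.filter (fun i => t ≤ f i), t := by
        simp
    _ ≤ ∑ i ∈ s.filter (fun i => t ≤ f i), f i := sum_le_sum (fun i hi => (mem_filter.1 hi).2)
    _ ≤ _ := sum_le_sum_of_subset_of_nonneg (filter_subset _ _) (fun i _ _ => hf i)

lemma exists_ge_avg {ι : Type} (s : Finset ι) (hs : s.Nonempty) (f : ι → ℝ) (t : ℝ)
    (h : t * s.card ≤ ∑ i ∈ s, f i) : ∃ i ∈ s, t ≤ f i := by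
  apply exists_le_of_sum_le hs
  rw [sum_const, nsmul_eq_mul, mul_comm]; exact h

lemma swap_count (A B : Finset (Perm α)) (Q : Perm α → Perm α → Perm α → Prop)
    [∀ x h y, Decidable (Q x h y)] :
    ∑ x ∈ B, ∑ h : Perm α, ((A.filter (fun y => Q x h y)).card : ℝ) =
      ∑ y ∈ A, (((B ×ˢ (univ : Finset (Perm α))).filter (fun xh => Q xh.1 xh.2 y)).card : ℝ) := by
  simp only [card_filter]
  push_cast
  rw [sum_comm (s := A), sum_product]

lemma evens_nonempty : (evens α).Nonempty := ⟨1, mem_evens.2 (one_mem _)⟩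

lemma small_growth (hn : 3 ≤ Fintype.card α) (A B : Finset (Perm α)) (F : Perm α → Finset α)
    {φ η : ℝ} (hF : ∀ x ∈ B, φ * Fintype.card α ≤ (F x).card)
    (hfar : ∀ b : Perm α, (((B ×ˢ (univ : Finset (Perm α))).filter
      (fun xh => xh.1 * xh.2 * b⁻¹ * xh.2⁻¹ ∈ B ∧
        1 ≤ (b.support.filter (fun q => xh.2 q ∈ F xh.1)).card)).card : ℝ) ≤
          η * (B.card * ((Fintype.card α).factorial : ℝ)))
    (hη : 4 * η ≤ φ) (hA : 2 ≤ A.card) :
    ∃ h ∈ evens α, (1 + φ / 2) * B.card ≤ (prodSet B A h).card := by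
  obtain ⟨y, hy, y', hy', hne⟩ := one_lt_card.1 hA
  set b := y'⁻¹ * y with hb
  have hb1 : b ≠ 1 := by
    intro h; apply hne; rw [hb, inv_mul_eq_one] at h; exact h.symm
  obtain ⟨q, hq⟩ : b.support.Nonempty := by
    rw [nonempty_iff_ne_empty]; intro h; exact hb1 (Perm.support_eq_empty_iff.1 h)
  have hE : ((Fintype.card α).factorial : ℝ) = 2 * (evens α).card := by
    exact_mod_cast (two_mul_card_evens hn).symm
  have h1 : φ * (B.card * (evens α).card) ≤
      (((B ×ˢ evens α).filter (fun xh => xh.2 q ∈ F xh.1)).card : ℝ) := by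
    have : (((B ×ˢ evens α).filter (fun xh => xh.2 q ∈ F xh.1)).card : ℝ) =
        ∑ x ∈ B, (((evens α).filter (fun h => h q ∈ F x)).card : ℝ) := by
      simp only [card_filter]; push_cast; rw [sum_product]
    rw [this]
    calc φ * (B.card * (evens α).card) = ∑ _x ∈ B, φ * (evens α).card := by
          rw [sum_const, nsmul_eq_mul]; ring
      _ ≤ _ := sum_le_sum (fun x hx => card_evens_hit hn (F x) φ (hF x hx) q)
  have hsub : (B ×ˢ evens α).filter (fun xh => xh.2 q ∈ F xh.1) ⊆
      (B ×ˢ evens α).filter (fun xh => xh.1 * xh.2 * b⁻¹ * xh.2⁻¹ ∉ B) ∪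
      (B ×ˢ (univ : Finset (Perm α))).filter (fun xh => xh.1 * xh.2 * b⁻¹ * xh.2⁻¹ ∈ B ∧
        1 ≤ (b.support.filter (fun q => xh.2 q ∈ F xh.1)).card) := by
    intro xh hxh
    obtain ⟨h2, h3⟩ := mem_filter.1 hxh
    by_cases h4 : xh.1 * xh.2 * b⁻¹ * xh.2⁻¹ ∈ B
    · apply mem_union_right
      refine mem_filter.2 ⟨mem_product.2 ⟨(mem_product.1 h2).1, mem_univ _⟩, h4, ?_⟩
      exact card_pos.2 ⟨q, mem_filter.2 ⟨hq, h3⟩⟩
    · exact mem_union_left _ (mem_filter.2 ⟨h2, h4⟩)
  have h5 := (Nat.cast_le (α := ℝ)).2 ((card_le_card hsub).trans (card_union_le _ _))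
  push_cast at h5
  have h6 := hfar b
  have h7 : (((B ×ˢ evens α).filter (fun xh => xh.1 * xh.2 * b⁻¹ * xh.2⁻¹ ∉ B)).card : ℝ) =
      ∑ h ∈ evens α, ((B.filter (fun x => x * h * b⁻¹ * h⁻¹ ∉ B)).card : ℝ) := by
    simp only [card_filter]; push_cast; rw [sum_product_right]
  have hBE : (0 : ℝ) ≤ B.card * (evens α).card := by positivity
  obtain ⟨h, hh, h8⟩ := exists_ge_avg (evens α) evens_nonempty
    (fun h => ((B.filter (fun x => x * h * b⁻¹ * h⁻¹ ∉ B)).card : ℝ)) (φ / 2 * B.card) (by
      rw [← h7]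
      rw [hE] at h6
      have := mul_le_mul_of_nonneg_right hη hBE
      linarith)
  refine ⟨h, hh, ?_⟩
  have h9 : B.image (fun x => x * h * y'⁻¹ * h⁻¹) ∪
      (B.filter (fun x => x * h * b⁻¹ * h⁻¹ ∉ B)).image (fun x => x * h * y⁻¹ * h⁻¹) ⊆
      prodSet B A h := by
    intro z hz
    rcases mem_union.1 hz with hz | hz
    · obtain ⟨x, hx, rfl⟩ := mem_image.1 hz
      exact mem_image.2 ⟨(x, y'), mem_product.2 ⟨hx, hy'⟩, rfl⟩
    · obtain ⟨x, hx, rfl⟩ := mem_image.1 hz
      exact mem_image.2 ⟨(x, y), mem_product.2 ⟨(mem_filter.1 hx).1, hy⟩, rfl⟩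
  have h10 := card_le_card h9
  rw [card_union_of_disjoint, card_image_of_injective, card_image_of_injective] at h10
  · have h11 := (Nat.cast_le (α := ℝ)).2 h10
    push_cast at h11
    linarith
  · intro a c hac; simpa using hac
  · intro a c hac; simpa using hac
  · rw [disjoint_left]
    intro z hz hz2
    obtain ⟨x, hx, rfl⟩ := mem_image.1 hz
    obtain ⟨x2, hx2, hz3⟩ := mem_image.1 hz2
    apply (mem_filter.1 hx2).2
    have : x2 * h * b⁻¹ * h⁻¹ = (x2 * h * y⁻¹ * h⁻¹) * (h * y' * h⁻¹) := by rw [hb]; group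
    rw [this, hz3]
    have : x * h * y'⁻¹ * h⁻¹ * (h * y' * h⁻¹) = x := by group
    rw [this]; exact hx

lemma heavy_weight (hn : 3 ≤ Fintype.card α) (A : Finset (Perm α)) {y : Perm α} (hy : y ∈ A)
    (F : Finset α) {φ : ℝ} (hφ0 : 0 ≤ φ) (hφ1 : φ ≤ 1) (hF : φ * Fintype.card α ≤ F.card) :
    φ / 2 * (evens α).card ≤ (((evens α).filter (fun h =>
      Real.exp (-((1 - φ / 2) * Real.log A.card)) ≤
        ∏ p ∈ univ.filter (fun p => p ∉ pull h F), cp A univ y p)).card : ℝ) := by
  set l : α → ℝ := fun j => - Real.log (cp A univ y j) with hl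
  have hl0 : ∀ j, 0 ≤ l j := fun j =>
    neg_nonneg.2 (Real.log_nonpos (cp_nonneg _ _ _ _) (cp_le_one _ _ _ _))
  have hA0 : (0 : ℝ) < A.card := by exact_mod_cast card_pos.2 ⟨y, hy⟩
  have hprod : ∀ S : Finset α, ∏ p ∈ S, cp A univ y p = Real.exp (-(∑ p ∈ S, l p)) := by
    intro S
    rw [← sum_neg_distrib, Real.exp_sum]
    apply prod_congr rfl
    intro p _
    simp only [hl, neg_neg]
    rw [Real.exp_log (cp_pos A univ hy p)]
  set Λ := ∑ j, l j with hΛ
  have hΛ0 : 0 ≤ Λ := sum_nonneg (fun j _ => hl0 j)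
  have hΛA : Λ ≤ Real.log A.card := by
    have := inv_card_le_prod_cp A hy univ
    rw [hprod, one_div, ← Real.exp_log hA0, ← Real.exp_neg, Real.exp_le_exp] at this
    linarith
  set Z : Perm α → ℝ := fun h => ∑ j ∈ univ.filter (fun p => p ∈ pull h F), l j with hZ
  have hZΛ : ∀ h, Z h + ∑ j ∈ univ.filter (fun p => p ∉ pull h F), l j = Λ := fun h =>
    sum_filter_add_sum_filter_not univ _ l
  have hZle : ∀ h, Z h ≤ Λ := fun h => by
    have := hZΛ h
    have h2 : 0 ≤ ∑ j ∈ univ.filter (fun p => p ∉ pull h F), l j := sum_nonneg (fun j _ => hl0 j)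
    linarith
  have hsum : φ * (evens α).card * Λ ≤ ∑ h ∈ evens α, Z h := by
    have : ∑ h ∈ evens α, Z h = ∑ j, (((evens α).filter (fun h => h j ∈ F)).card : ℝ) * l j := by
      simp only [hZ, sum_filter, pull, mem_filter, mem_univ, true_and, card_filter]
      rw [sum_comm]
      apply sum_congr rfl
      intro j _
      push_cast
      rw [sum_mul]
      apply sum_congr rfl
      intro h _
      split_ifs <;> simp
    rw [this, hΛ, mul_sum]
    exact sum_le_sum (fun j _ => mul_le_mul_of_nonneg_right (card_evens_hit hn F φ hF j) (hl0 j))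
  have hsub : (evens α).filter (fun h => φ / 2 * Λ ≤ Z h) ⊆ (evens α).filter (fun h =>
      Real.exp (-((1 - φ / 2) * Real.log A.card)) ≤
        ∏ p ∈ univ.filter (fun p => p ∉ pull h F), cp A univ y p) := by
    intro h hh
    refine mem_filter.2 ⟨(mem_filter.1 hh).1, ?_⟩
    rw [hprod, Real.exp_le_exp]
    have h1 := hZΛ h
    have h2 := (mem_filter.1 hh).2
    have h3 : (1 - φ / 2) * Λ ≤ (1 - φ / 2) * Real.log A.card :=
      mul_le_mul_of_nonneg_left hΛA (by linarith)
    linarith
  refine le_trans ?_ (Nat.cast_le.2 (card_le_card hsub))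
  rcases hΛ0.eq_or_lt with h0 | h0
  · have : (evens α).filter (fun h => φ / 2 * Λ ≤ Z h) = evens α := by
      apply filter_true_of_mem
      intro h _
      rw [← h0, mul_zero]
      exact sum_nonneg (fun j _ => hl0 j)
    rw [this]
    have : (0 : ℝ) ≤ (evens α).card := by positivity
    nlinarith
  · have h1 : ∀ h ∈ evens α, Z h ≤ (if φ / 2 * Λ ≤ Z h then Λ else 0) + φ / 2 * Λ := by
      intro h _
      split_ifs with hh
      · have := hZle h
        have : 0 ≤ φ / 2 * Λ := by positivity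
        linarith
      · push Not at hh; linarith
    have h2 := hsum.trans (sum_le_sum h1)
    rw [sum_add_distrib, ← sum_filter, sum_const, sum_const, nsmul_eq_mul, nsmul_eq_mul] at h2
    have h3 : φ / 2 * (evens α).card * Λ ≤
        (((evens α).filter (fun h => φ / 2 * Λ ≤ Z h)).card : ℝ) * Λ := by linarith
    exact le_of_mul_le_mul_right h3 h0

lemma big_growth (hn : 3 ≤ Fintype.card α) (A B : Finset (Perm α)) (F : Perm α → Finset α)
    {φ η : ℝ} (hφ0 : 0 < φ) (hφ1 : φ ≤ 1) (hη : 0 < η) (m : ℕ)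
    (hF : ∀ x ∈ B, φ * Fintype.card α ≤ (F x).card)
    (hfar : ∀ b : Perm α, (((B ×ˢ (univ : Finset (Perm α))).filter
      (fun xh => xh.1 * xh.2 * b⁻¹ * xh.2⁻¹ ∈ B ∧
        m + 1 ≤ (b.support.filter (fun q => xh.2 q ∈ F xh.1)).card)).card : ℝ) ≤
          η * (B.card * ((Fintype.card α).factorial : ℝ))) (hA : A.Nonempty) :
    ∃ h ∈ evens α, φ / 4 * (B.card * A.card) ≤ (prodSet B A h).card *
      (8 / φ * ((Fintype.card α : ℝ) ^ 2 + 1) ^ m * Real.exp ((1 - φ / 2) * Real.log A.card) +
        16 / φ * η * A.card) := by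
  set T := (B ×ˢ A) ×ˢ evens α with hT
  have hE : ((Fintype.card α).factorial : ℝ) = 2 * (evens α).card := by
    exact_mod_cast (two_mul_card_evens hn).symm
  have hA0 : (0 : ℝ) < A.card := by exact_mod_cast card_pos.2 hA
  set X : ℝ := B.card * A.card * (evens α).card with hX
  set w : (Perm α × Perm α) × Perm α → ℝ := fun t =>
    ∏ p ∈ univ.filter (fun p => p ∉ pull t.2 (F t.1.1)), cp A univ t.1.2 p with hw
  have hw0 : ∀ t, 0 ≤ w t := fun t => prod_nonneg (fun p _ => cp_nonneg _ _ _ _)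
  set near : (Perm α × Perm α) × Perm α → ℕ := fun t =>
    (A.filter (fun y' => ((pull t.2 (F t.1.1)).filter (fun j => t.1.2 j ≠ y' j)).card ≤ m)).card
    with hnear
  set far : (Perm α × Perm α) × Perm α → ℕ := fun t =>
    (A.filter (fun y' => t.1.1 * t.2 * (y'⁻¹ * t.1.2)⁻¹ * t.2⁻¹ ∈ B ∧
      m + 1 ≤ ((y'⁻¹ * t.1.2).support.filter (fun q => t.2 q ∈ F t.1.1)).card)).card with hfardef
  set P := ((Fintype.card α : ℝ) ^ 2 + 1) ^ m with hP
  have hP0 : 0 < P := by positivity
  set u := Real.exp (-((1 - φ / 2) * Real.log A.card)) with hu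
  have c1 : φ / 2 * X ≤ ((T.filter (fun t => u ≤ w t)).card : ℝ) := by
    have : ((T.filter (fun t => u ≤ w t)).card : ℝ) =
        ∑ xy ∈ B ×ˢ A, (((evens α).filter (fun h => u ≤ w (xy, h))).card : ℝ) := by
      simp only [hT, card_filter]; push_cast; rw [sum_product]
    rw [this]
    calc φ / 2 * X = ∑ _xy ∈ B ×ˢ A, φ / 2 * (evens α).card := by
          rw [sum_const, nsmul_eq_mul, card_product, hX]; push_cast; ring
      _ ≤ _ := sum_le_sum (fun xy hxy => heavy_weight hn A (mem_product.1 hxy).2 (F xy.1) hφ0.le hφ1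
          (hF _ (mem_product.1 hxy).1))
  have c2 : ((T.filter (fun t => 8 / φ * P ≤ near t * w t)).card : ℝ) ≤ φ / 8 * X := by
    have h1 := markov T (fun t => near t * w t) (fun t => mul_nonneg (by positivity) (hw0 t))
      (8 / φ * P)
    have h2 : ∑ t ∈ T, near t * w t ≤ X * P := by
      rw [hT, sum_product_right]
      calc _ ≤ ∑ _h ∈ evens α, (B.card : ℝ) * (A.card * P) := by
            apply sum_le_sum
            intro h _
            rw [sum_product, ← nsmul_eq_mul B.card, ← sum_const]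
            apply sum_le_sum
            intro x _
            have e : ∑ y ∈ A, (near ((x, y), h) : ℝ) * w ((x, y), h) =
                ∑ y' ∈ A, ∑ y ∈ A.filter (fun y =>
                  ((pull h (F x)).filter (fun j => y j ≠ y' j)).card ≤ m),
                  ∏ p ∈ univ.filter (fun p => p ∉ pull h (F x)), cp A univ y p := by
              simp only [hnear, hw, card_filter, sum_filter (s := A)]
              rw [sum_comm]
              apply sum_congr rfl
              intro y _
              push_cast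
              rw [sum_mul]
              apply sum_congr rfl
              intro y' _
              split_ifs <;> simp
            rw [e, ← nsmul_eq_mul A.card, ← sum_const]
            exact sum_le_sum (fun y' _ => weight_ball A (pull h (F x)) m y')
        _ = X * P := by rw [sum_const, nsmul_eq_mul, hX]; ring
    have h3 : ((T.filter (fun t => 8 / φ * P ≤ near t * w t)).card : ℝ) * (8 / φ * P) ≤
        φ / 8 * X * (8 / φ * P) := by
      have : φ / 8 * X * (8 / φ * P) = X * P := by field_simp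
      rw [this]; exact h1.trans h2
    exact le_of_mul_le_mul_right h3 (by positivity)
  have c3 : ((T.filter (fun t => 16 / φ * η * A.card ≤ far t)).card : ℝ) ≤ φ / 8 * X := by
    have h1 := markov T (fun t => (far t : ℝ)) (fun t => by positivity) (16 / φ * η * A.card)
    have h2 : ∑ t ∈ T, (far t : ℝ) ≤ X * (2 * η * A.card) := by
      calc ∑ t ∈ T, (far t : ℝ) ≤ ∑ t ∈ (B ×ˢ A) ×ˢ (univ : Finset (Perm α)), (far t : ℝ) := by
            apply sum_le_sum_of_subset_of_nonneg
            · exact product_subset_product_right (subset_univ _)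
            · intro _ _ _; positivity
        _ = ∑ y ∈ A, ∑ y' ∈ A, (((B ×ˢ (univ : Finset (Perm α))).filter
            (fun xh => xh.1 * xh.2 * (y'⁻¹ * y)⁻¹ * xh.2⁻¹ ∈ B ∧
              m + 1 ≤ ((y'⁻¹ * y).support.filter (fun q => xh.2 q ∈ F xh.1)).card)).card : ℝ) := by
            rw [sum_product, sum_product_right]
            apply sum_congr rfl
            intro y _
            exact swap_count A B (fun x h y' => x * h * (y'⁻¹ * y)⁻¹ * h⁻¹ ∈ B ∧
              m + 1 ≤ ((y'⁻¹ * y).support.filter (fun q => h q ∈ F x)).card)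
        _ ≤ ∑ _y ∈ A, ∑ _y' ∈ A, η * (B.card * ((Fintype.card α).factorial : ℝ)) :=
            sum_le_sum (fun y _ => sum_le_sum (fun y' _ => hfar _))
        _ = X * (2 * η * A.card) := by
            simp only [sum_const, nsmul_eq_mul, hX, hE]; ring
    have h3 : ((T.filter (fun t => 16 / φ * η * A.card ≤ far t)).card : ℝ) * (16 / φ * η * A.card) ≤
        φ / 8 * X * (16 / φ * η * A.card) := by
      have : φ / 8 * X * (16 / φ * η * A.card) = X * (2 * η * A.card) := by field_simp; ring
      rw [this]; exact h1.trans h2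
    exact le_of_mul_le_mul_right h3 (by positivity)
  set N0 := 8 / φ * P * Real.exp ((1 - φ / 2) * Real.log A.card) + 16 / φ * η * A.card with hN0
  have hN00 : 0 ≤ N0 := by positivity
  set Good := T.filter (fun t => ((near t + far t : ℕ) : ℝ) ≤ N0) with hGood
  have hsub : T.filter (fun t => u ≤ w t) ⊆ Good ∪ (T.filter (fun t => 8 / φ * P ≤ near t * w t) ∪
      T.filter (fun t => 16 / φ * η * A.card ≤ far t)) := by
    intro t ht
    obtain ⟨h1, h2⟩ := mem_filter.1 ht
    by_cases h3 : 8 / φ * P ≤ near t * w t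
    · exact mem_union_right _ (mem_union_left _ (mem_filter.2 ⟨h1, h3⟩))
    by_cases h4 : 16 / φ * η * A.card ≤ far t
    · exact mem_union_right _ (mem_union_right _ (mem_filter.2 ⟨h1, h4⟩))
    apply mem_union_left
    refine mem_filter.2 ⟨h1, ?_⟩
    push Not at h3 h4
    have h5 : (near t : ℝ) * u ≤ 8 / φ * P :=
      (mul_le_mul_of_nonneg_left h2 (by positivity)).trans h3.le
    have h6 : u * Real.exp ((1 - φ / 2) * Real.log A.card) = 1 := by
      rw [hu, ← Real.exp_add]; simp
    have h7 := mul_le_mul_of_nonneg_right h5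
      (Real.exp_pos ((1 - φ / 2) * Real.log A.card)).le
    rw [mul_assoc, h6, mul_one] at h7
    push_cast
    linarith
  have h8 := (Nat.cast_le (α := ℝ)).2 ((card_le_card hsub).trans ((card_union_le _ _).trans
    (Nat.add_le_add_left (card_union_le _ _) _)))
  push_cast at h8
  have h9 : (Good.card : ℝ) = ∑ h ∈ evens α,
      (((B ×ˢ A).filter (fun xy => ((near (xy, h) + far (xy, h) : ℕ) : ℝ) ≤ N0)).card : ℝ) := by
    simp only [hGood, hT, card_filter]; push_cast; rw [sum_product_right]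
  obtain ⟨h, hh, h10⟩ := exists_ge_avg (evens α) evens_nonempty
    (fun h => (((B ×ˢ A).filter (fun xy => ((near (xy, h) + far (xy, h) : ℕ) : ℝ) ≤ N0)).card : ℝ))
    (φ / 4 * (B.card * A.card)) (by rw [← h9]; linarith)
  refine ⟨h, hh, h10.trans ?_⟩
  have h11 := card_le_mul_card_image_of_maps_to
    (s := (B ×ˢ A).filter (fun xy => ((near (xy, h) + far (xy, h) : ℕ) : ℝ) ≤ N0))
    (t := prodSet B A h) (f := fun xy => xy.1 * h * xy.2⁻¹ * h⁻¹)
    (fun xy hxy => mem_image.2 ⟨xy, (mem_filter.1 hxy).1, rfl⟩) ⌊N0⌋₊ (by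
      intro z _
      set Fz := ((B ×ˢ A).filter (fun xy => ((near (xy, h) + far (xy, h) : ℕ) : ℝ) ≤ N0)).filter
        (fun xy => xy.1 * h * xy.2⁻¹ * h⁻¹ = z) with hFz
      rcases Fz.eq_empty_or_nonempty with h0 | ⟨⟨x, y⟩, hxy⟩
      · rw [h0]; simp
      · obtain ⟨h1, h2⟩ := mem_filter.1 hxy
        obtain ⟨h3, h4⟩ := mem_filter.1 h1
        refine le_trans ?_ (Nat.le_floor h4)
        refine le_trans ?_ (card_union_le _ _)
        apply card_le_card_of_injOn (fun xy => xy.2)
        · rintro ⟨x', y'⟩ hxy'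
          obtain ⟨h5, h6⟩ := mem_filter.1 hxy'
          obtain ⟨h7, _⟩ := mem_filter.1 h5
          obtain ⟨h8, h9⟩ := mem_product.1 h7
          simp only at h2 h6 h8 h9
          simp only [coe_union, coe_filter, Set.mem_union, Set.mem_ofPred_eq]
          have e : (pull h (F x)).filter (fun j => y j ≠ y' j) =
              (y'⁻¹ * y).support.filter (fun q => h q ∈ F x) := by
            ext j
            simp only [pull, mem_filter, mem_univ, true_and, Perm.mem_support, Perm.mul_apply,
              ne_eq, Perm.inv_eq_iff_eq]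
            tauto
          by_cases hc : ((pull h (F x)).filter (fun j => y j ≠ y' j)).card ≤ m
          · exact Or.inl ⟨h9, hc⟩
          · refine Or.inr ⟨h9, ?_, ?_⟩
            · have : x * h * (y'⁻¹ * y)⁻¹ * h⁻¹ = (x * h * y⁻¹ * h⁻¹) * (h * y' * h⁻¹) := by group
              rw [this, h2, ← h6]
              have : x' * h * y'⁻¹ * h⁻¹ * (h * y' * h⁻¹) = x' := by group
              rw [this]; exact h8
            · rw [← e]; omega
        · rintro ⟨x1, y1⟩ h5 ⟨x2, y2⟩ h6 h7
          simp only at h7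
          subst h7
          have e1 := (mem_filter.1 h5).2
          have e2 := (mem_filter.1 h6).2
          simp only at e1 e2
          have := e1.trans e2.symm
          simp only [mul_left_inj] at this
          rw [this])
  calc _ ≤ ((⌊N0⌋₊ * (prodSet B A h).card : ℕ) : ℝ) := by exact_mod_cast h11
    _ ≤ _ := by
        push_cast
        rw [mul_comm]
        exact mul_le_mul_of_nonneg_left (Nat.floor_le hN00) (by positivity)

end Pool.Agent.H174Z.Grow
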