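import Mathlib
import Pool.Agent.H174Z.Grow.Apply

set_option autoImplicit false
set_option linter.unusedSectionVars false

namespace Pool.Agent.H174Z.Grow

open Finset Equiv

lemma exists_eps (M c : ℝ) (hM : 1 ≤ M) (hc : 0 < c) : ∃ ε : ℝ, 0 < ε ∧ M ^ ε ≤ 1 + c := by
  have h1 : 0 ≤ Real.log M := Real.log_nonneg hM
  have h2 : 0 < Real.log (1 + c) := Real.log_pos (by linarith)
  refine ⟨Real.log (1 + c) / (Real.log M + 1), by positivity, ?_⟩
  rw [Real.rpow_def_of_pos (by linarith), ← Real.exp_log (show 0 < 1 + c by linarith),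
    Real.exp_le_exp, Real.log_exp, ← mul_div_assoc, div_le_iff₀ (by linarith)]
  nlinarith

theorem large_n {δ : ℝ} (hδ0 : 0 < δ) (hδ1 : δ ≤ 1) :
    ∃ ε : ℝ, 0 < ε ∧ ∃ n0 : ℕ, ∀ (α : Type) [Fintype α] [LinearOrder α],
      n0 ≤ Fintype.card α → ∀ A B : Finset (Perm α),
      (B.card : ℝ) ≤ Real.exp ((1 - δ) * Fintype.card α * Real.log (Fintype.card α)) →
      2 ≤ A.card → ∃ h ∈ evens α, (B.card : ℝ) * (A.card : ℝ) ^ ε ≤ (prodSet B A h).card := by
  obtain ⟨a, ha, C, hC, n0, H⟩ := rigidity hδ0 hδ1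
  set φ := δ / 8 with hφ
  have hφ0 : 0 < φ := by positivity
  have hφ1 : φ ≤ 1 := by linarith
  set e2 := min (φ / 4) (a * (φ / 12)) with he2
  have he20 : 0 < e2 := by positivity
  have he21 : e2 ≤ φ / 4 := min_le_left _ _
  have he22 : e2 ≤ a * (φ / 12) := min_le_right _ _
  set C1 := (4 / φ * ((8 + 16 * C) / φ)) + 1 with hC1
  have hC11 : 1 ≤ C1 := by
    have : 0 ≤ 4 / φ * ((8 + 16 * C) / φ) := by positivity
    linarith
  obtain ⟨e3, he30, he3⟩ := exists_eps (C1 ^ (2 / e2)) (φ / 2)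
    (Real.one_le_rpow hC11 (by positivity)) (by positivity)
  refine ⟨min (e2 / 2) e3, by positivity, max (max n0 3) ⌈Real.exp (4 * C / (φ * a))⌉₊, ?_⟩
  intro α _ _ hn A B hB hA
  have hn0 : n0 ≤ Fintype.card α := le_trans ((le_max_left _ _).trans (le_max_left _ _)) hn
  have hn3 : 3 ≤ Fintype.card α := le_trans ((le_max_right _ _).trans (le_max_left _ _)) hn
  have hnR : Real.exp (4 * C / (φ * a)) ≤ (Fintype.card α : ℝ) :=
    (Nat.le_ceil _).trans (Nat.cast_le.2 ((le_max_right _ _).trans hn))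
  obtain ⟨F, hF, hfar⟩ := H α hn0 B hB
  set n : ℝ := ((Fintype.card α : ℕ) : ℝ) with hndef
  set ℓ := Real.log n with hℓ
  have hn3' : (3 : ℝ) ≤ n := Nat.cast_le.2 hn3 |>.trans' (by norm_num)
  have hn0' : 0 < n := by linarith
  have hℓ0 : 0 < ℓ := Real.log_pos (by linarith)
  have hℓR : 4 * C / (φ * a) ≤ ℓ := (Real.le_log_iff_exp_le hn0').2 hnR
  have hA2 : (2 : ℝ) ≤ A.card := by exact_mod_cast hA
  have hA1 : (1 : ℝ) ≤ A.card := by linarith
  have hB0 : (0 : ℝ) ≤ B.card := by positivity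
  by_cases hbig : C1 ≤ (A.card : ℝ) ^ (e2 / 2)
  · set Λ := Real.log A.card with hΛ
    have hΛ0 : 0 < Λ := Real.log_pos (by linarith)
    have hexpΛ : Real.exp Λ = A.card := Real.exp_log (by linarith)
    set m0 := ⌈φ / 12 * Λ / ℓ⌉₊ with hm0
    have hm01 : 1 ≤ m0 := Nat.ceil_pos.2 (by positivity)
    obtain ⟨m, hm⟩ : ∃ m, m0 = m + 1 := ⟨m0 - 1, by omega⟩
    have hm1 : φ / 12 * Λ ≤ (m + 1 : ℕ) * ℓ := by
      have : φ / 12 * Λ / ℓ ≤ m0 := Nat.le_ceil _
      rwa [div_le_iff₀ hℓ0, hm] at this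
    have hm2 : m * ℓ ≤ φ / 12 * Λ := by
      have : (m0 : ℝ) < φ / 12 * Λ / ℓ + 1 := Nat.ceil_lt_add_one (by positivity)
      rw [hm] at this
      push_cast at this
      have h2 : (m : ℝ) ≤ φ / 12 * Λ / ℓ := by linarith
      rwa [le_div_iff₀ hℓ0] at h2
    obtain ⟨h, hh, hg⟩ := big_growth hn3 A B F hφ0 hφ1
      (η := C * Real.exp (-(a * (m + 1 : ℕ) * ℓ))) (by positivity) m hF
      (fun b => (hfar b (m + 1) (by omega)).trans (le_of_eq (by ring)))
      (card_pos.1 (by omega))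
    refine ⟨h, hh, ?_⟩
    set Y := Real.exp ((1 - e2) * Λ) with hY
    have hY0 : 0 < Y := Real.exp_pos _
    have t1 : (n ^ 2 + 1) ^ m * Real.exp ((1 - φ / 2) * Λ) ≤ Y := by
      have h1 : n ^ 2 + 1 ≤ Real.exp (3 * ℓ) := by
        have : Real.exp (3 * ℓ) = n ^ 3 := by
          rw [show (3 : ℝ) * ℓ = ((3 : ℕ) : ℝ) * ℓ by norm_num, Real.exp_nat_mul,
            Real.exp_log hn0']
        rw [this]; nlinarith
      have h2 : (n ^ 2 + 1) ^ m ≤ Real.exp (m * (3 * ℓ)) := by
        rw [Real.exp_nat_mul]; exact pow_le_pow_left₀ (by positivity) h1 _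
      refine (mul_le_mul_of_nonneg_right h2 (Real.exp_pos _).le).trans ?_
      rw [← Real.exp_add, hY, Real.exp_le_exp]
      have := mul_le_mul_of_nonneg_right he21 hΛ0.le
      linarith
    have t2 : Real.exp (-(a * (m + 1 : ℕ) * ℓ)) * A.card ≤ Y := by
      rw [← hexpΛ, ← Real.exp_add, hY, Real.exp_le_exp]
      have h1 := mul_le_mul_of_nonneg_right he22 hΛ0.le
      have h2 := mul_le_mul_of_nonneg_left hm1 ha.le
      linarith
    have t3 : 8 / φ * (n ^ 2 + 1) ^ m * Real.exp ((1 - φ / 2) * Λ) +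
        16 / φ * (C * Real.exp (-(a * (m + 1 : ℕ) * ℓ))) * A.card ≤ (8 + 16 * C) / φ * Y := by
      have h1 := mul_le_mul_of_nonneg_left t1 (show 0 ≤ 8 / φ by positivity)
      have h2 := mul_le_mul_of_nonneg_left t2 (show 0 ≤ 16 / φ * C by positivity)
      calc _ = 8 / φ * ((n ^ 2 + 1) ^ m * Real.exp ((1 - φ / 2) * Λ)) +
            16 / φ * C * (Real.exp (-(a * (m + 1 : ℕ) * ℓ)) * A.card) := by ring
        _ ≤ 8 / φ * Y + 16 / φ * C * Y := add_le_add h1 h2
        _ = _ := by ring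
    set Pz : ℝ := ((prodSet B A h).card : ℝ) with hPz
    have hPz0 : 0 ≤ Pz := by positivity
    have t4 : φ / 4 * (B.card * A.card) ≤ Pz * ((8 + 16 * C) / φ * Y) :=
      hg.trans (mul_le_mul_of_nonneg_left t3 hPz0)
    have t5 : (A.card : ℝ) = (A.card : ℝ) ^ (e2 / 2) * (A.card : ℝ) ^ (e2 / 2) * Y := by
      rw [Real.rpow_def_of_pos (by linarith), ← hΛ, hY, ← Real.exp_add, ← Real.exp_add]
      rw [show Λ * (e2 / 2) + Λ * (e2 / 2) + (1 - e2) * Λ = Λ by ring, hexpΛ]
    have t8 : (A.card : ℝ) ^ min (e2 / 2) e3 ≤ (A.card : ℝ) ^ (e2 / 2) :=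
      Real.rpow_le_rpow_of_exponent_le hA1 (min_le_left _ _)
    set V := (A.card : ℝ) ^ (e2 / 2) with hV
    have hV0 : 0 < V := lt_of_lt_of_le one_pos (hC11.trans hbig)
    clear hV hY
    clear_value V Y Pz
    have t6 : B.card * V * (C1 * Y) ≤ Pz * (C1 * Y) := by
      have h1 : (B.card : ℝ) * A.card ≤ Pz * (4 / φ * ((8 + 16 * C) / φ) * Y) := by
        have := mul_le_mul_of_nonneg_left t4 (show 0 ≤ 4 / φ by positivity)
        calc (B.card : ℝ) * A.card = 4 / φ * (φ / 4 * (B.card * A.card)) := by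
              clear t5; field_simp
          _ ≤ _ := this
          _ = _ := by clear t5; ring
      calc B.card * V * (C1 * Y) ≤ B.card * V * (V * Y) := by gcongr
        _ = B.card * (V * V * Y) := by rw [mul_assoc, mul_assoc]
        _ = (B.card : ℝ) * A.card := by rw [← t5]
        _ ≤ _ := h1
        _ ≤ Pz * (C1 * Y) := by gcongr; linarith
    have t7 := le_of_mul_le_mul_right t6 (by positivity)
    refine le_trans ?_ t7
    exact mul_le_mul_of_nonneg_left t8 hB0
  · obtain ⟨h, hh, hg⟩ := small_growth hn3 A B F (φ := φ) (η := C * Real.exp (-(a * (1 : ℕ) * ℓ)))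
      hF (fun b => (hfar b 1 le_rfl).trans (le_of_eq (by ring))) (by
        have h1 : a * ℓ ≤ Real.exp (a * ℓ) := by have := Real.add_one_le_exp (a * ℓ); linarith
        rw [div_le_iff₀ (by positivity)] at hℓR
        have h2 : Real.exp (-(a * (1 : ℕ) * ℓ)) * Real.exp (a * ℓ) = 1 := by
          rw [← Real.exp_add]; simp
        have h3 : 4 * C ≤ φ * Real.exp (a * ℓ) := by
          have := mul_le_mul_of_nonneg_left h1 hφ0.le
          linarith
        have h4 := mul_le_mul_of_nonneg_left h3 (Real.exp_pos (-(a * (1 : ℕ) * ℓ))).le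
        have h5 : Real.exp (-(a * (1 : ℕ) * ℓ)) * (φ * Real.exp (a * ℓ)) = φ := by
          rw [mul_left_comm, h2, mul_one]
        linarith) hA
    refine ⟨h, hh, le_trans ?_ hg⟩
    rw [mul_comm]
    apply mul_le_mul_of_nonneg_right _ hB0
    refine le_trans ?_ he3
    push Not at hbig
    have h1 : (A.card : ℝ) ≤ C1 ^ (2 / e2) := by
      have h2 : ((A.card : ℝ) ^ (e2 / 2)) ^ (2 / e2) ≤ C1 ^ (2 / e2) :=
        Real.rpow_le_rpow (by positivity) hbig.le (by positivity)
      rw [← Real.rpow_mul (by positivity)] at h2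
      have : e2 / 2 * (2 / e2) = 1 := by field_simp
      rwa [this, Real.rpow_one] at h2
    calc (A.card : ℝ) ^ min (e2 / 2) e3 ≤ (A.card : ℝ) ^ e3 :=
          Real.rpow_le_rpow_of_exponent_le hA1 (min_le_right _ _)
      _ ≤ _ := Real.rpow_le_rpow (by positivity) h1 he30.le

lemma simple_growth {G : Type} [Group G] [Fintype G] [DecidableEq G] [IsSimpleGroup G]
    (A B : Finset G) (hA : 2 ≤ A.card) (hB : B.Nonempty) (hBG : B.card < Fintype.card G) :
    ∃ g : G, B.card + 1 ≤ ((B ×ˢ A).image (fun p => p.1 * (g⁻¹ * p.2 * g))).card := by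
  by_contra hcon
  push Not at hcon
  obtain ⟨y, hy, y', hy', hne⟩ := one_lt_card.1 hA
  have h1 : ∀ g : G, ∀ a ∈ A, B.image (fun x => x * (g⁻¹ * a * g)) =
      (B ×ˢ A).image (fun p => p.1 * (g⁻¹ * p.2 * g)) := by
    intro g a ha
    apply eq_of_subset_of_card_le
    · intro z hz
      obtain ⟨x, hx, rfl⟩ := mem_image.1 hz
      exact mem_image.2 ⟨(x, a), mem_product.2 ⟨hx, ha⟩, rfl⟩
    · rw [card_image_of_injective _ (mul_left_injective _)]
      have := hcon g; omega
  have h2 : ∀ k ∈ Subgroup.normalClosure ({y * y'⁻¹} : Set G), B.image (fun x => x * k) = B := by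
    intro k hk
    unfold Subgroup.normalClosure at hk
    induction hk using Subgroup.closure_induction with
    | mem k hk =>
      obtain ⟨a, ha, hc⟩ := Group.mem_conjugatesOfSet_iff.1 hk
      rw [Set.mem_singleton_iff] at ha
      subst ha
      obtain ⟨c, rfl⟩ := isConj_iff.1 hc
      apply eq_of_subset_of_card_le
      · intro z hz
        obtain ⟨x, hx, rfl⟩ := mem_image.1 hz
        have : x * (c⁻¹⁻¹ * y * c⁻¹) ∈ B.image (fun x => x * (c⁻¹⁻¹ * y' * c⁻¹)) := by
          rw [h1 c⁻¹ y' hy', ← h1 c⁻¹ y hy]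
          exact mem_image.2 ⟨x, hx, rfl⟩
        obtain ⟨x2, hx2, e⟩ := mem_image.1 this
        have e2 : x * (c * (y * y'⁻¹) * c⁻¹) = x * (c⁻¹⁻¹ * y * c⁻¹) * (c⁻¹⁻¹ * y' * c⁻¹)⁻¹ := by
          group
        rw [e2, ← e, mul_inv_cancel_right]; exact hx2
      · rw [card_image_of_injective _ (mul_left_injective _)]
    | one => simp
    | mul k1 k2 _ _ i1 i2 =>
      have : (fun x => x * (k1 * k2)) = (fun x => x * k2) ∘ (fun x => x * k1) := by
        ext x; simp [mul_assoc]
      rw [this, ← image_image, i1, i2]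
    | inv k _ i1 =>
      have : B.image (fun x => x * k⁻¹) = (B.image (fun x => x * k)).image (fun x => x * k⁻¹) := by
        rw [i1]
      rw [this, image_image]
      simp [Function.comp_def]
  have h3 : Subgroup.normalClosure ({y * y'⁻¹} : Set G) = ⊤ := by
    rcases IsSimpleGroup.eq_bot_or_eq_top_of_normal
      (Subgroup.normalClosure ({y * y'⁻¹} : Set G)) inferInstance with h | h
    · have : y * y'⁻¹ ∈ Subgroup.normalClosure ({y * y'⁻¹} : Set G) :=
        Subgroup.subset_normalClosure rfl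
      rw [h, Subgroup.mem_bot, mul_inv_eq_one] at this
      exact absurd this hne
    · exact h
  obtain ⟨x0, hx0⟩ := hB
  have h4 : B = univ := by
    apply eq_univ_of_forall
    intro z
    rw [← h2 (x0⁻¹ * z) (h3 ▸ Subgroup.mem_top _)]
    exact mem_image.2 ⟨x0, hx0, by simp⟩
  rw [h4, card_univ] at hBG
  exact lt_irrefl _ hBG

theorem main (δ : ℝ) (hδ : 0 < δ) : ∃ ε : ℝ, 0 < ε ∧ ∀ n : ℕ, 5 ≤ n →
    ∀ A B : Finset (alternatingGroup (Fin n)),
      (B.card : ℝ) ≤ (Nat.card (alternatingGroup (Fin n)) : ℝ) ^ (1 - δ) →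
      ∃ g : alternatingGroup (Fin n), (B.card : ℝ) * (A.card : ℝ) ^ ε ≤
        (((B ×ˢ A).image (fun p => p.1 * (g⁻¹ * p.2 * g))).card : ℝ) := by
  obtain ⟨e1, he1, n0, H⟩ := large_n (δ := min δ 1) (by positivity) (min_le_right _ _)
  have hM : (1 : ℝ) ≤ n0.factorial := by exact_mod_cast Nat.factorial_pos n0
  obtain ⟨e2, he2, he3⟩ := exists_eps n0.factorial (1 / n0.factorial) hM (by positivity)
  refine ⟨min e1 e2, by positivity, ?_⟩
  intro n hn A B hB
  rcases A.eq_empty_or_nonempty with rfl | ⟨a0, ha0⟩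
  · refine ⟨1, ?_⟩
    rw [card_empty, Nat.cast_zero, Real.zero_rpow (by positivity)]
    simp
  by_cases hA : 2 ≤ A.card
  swap
  · refine ⟨1, ?_⟩
    have h1 : A.card = 1 := by
      have := card_pos.2 ⟨a0, ha0⟩; omega
    rw [h1, Nat.cast_one, Real.one_rpow, mul_one, Nat.cast_le]
    apply card_le_card_of_injOn (fun x => x * (1⁻¹ * a0 * 1))
    · intro x hx
      exact mem_coe.2 (mem_image.2 ⟨(x, a0), mem_product.2 ⟨hx, ha0⟩, rfl⟩)
    · intro x _ y _ hxy; simpa using hxy
  have hA1 : (1 : ℝ) ≤ A.card := by exact_mod_cast (by omega : 1 ≤ A.card)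
  have hnt : Nontrivial (Fin n) := Fin.nontrivial_iff_two_le.2 (by omega)
  have hG : 2 * Nat.card (alternatingGroup (Fin n)) = n.factorial := by
    rw [two_mul_nat_card_alternatingGroup, Nat.card_eq_fintype_card, Fintype.card_perm,
      Fintype.card_fin]
  have hG2 : 2 ≤ Nat.card (alternatingGroup (Fin n)) := by
    rw [Nat.card_eq_fintype_card]; exact hA.trans (card_le_univ A)
  have hG1 : (1 : ℝ) < Nat.card (alternatingGroup (Fin n)) := by exact_mod_cast hG2
  by_cases hn0 : n0 ≤ n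
  · set A' : Finset (Perm (Fin n)) := A.image (fun a : alternatingGroup (Fin n) => (a : Perm (Fin n))⁻¹) with hA'
    set B' : Finset (Perm (Fin n)) := B.image (fun a : alternatingGroup (Fin n) => (a : Perm (Fin n))) with hB'
    have hA'c : A'.card = A.card := card_image_of_injective _ (fun a b h => by
      simpa using h)
    have hB'c : B'.card = B.card := card_image_of_injective _ Subtype.val_injective
    obtain ⟨h, hh, hg⟩ := H (Fin n) (by simpa using hn0) A' B' (by
      rw [hB'c, Fintype.card_fin]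
      have hδ' : 0 ≤ 1 - min δ 1 := by have := min_le_right δ 1; linarith
      have hnpos : (0 : ℝ) < n := by exact_mod_cast (by omega : 0 < n)
      calc (B.card : ℝ) ≤ (Nat.card (alternatingGroup (Fin n)) : ℝ) ^ (1 - δ) := hB
        _ ≤ (Nat.card (alternatingGroup (Fin n)) : ℝ) ^ (1 - min δ 1) :=
            Real.rpow_le_rpow_of_exponent_le hG1.le (by have := min_le_left δ 1; linarith)
        _ ≤ ((n : ℝ) ^ n) ^ (1 - min δ 1) := by
            apply Real.rpow_le_rpow (by positivity) _ hδ'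
            have := Nat.factorial_le_pow n
            exact_mod_cast (by omega : Nat.card (alternatingGroup (Fin n)) ≤ n ^ n)
        _ = _ := by
            rw [Real.rpow_def_of_pos (by positivity), Real.log_pow]; congr 1; ring)
      (by rw [hA'c]; exact hA)
    refine ⟨(⟨h, mem_evens.1 hh⟩ : alternatingGroup (Fin n))⁻¹, ?_⟩
    rw [hA'c, hB'c] at hg
    calc (B.card : ℝ) * (A.card : ℝ) ^ min e1 e2 ≤ (B.card : ℝ) * (A.card : ℝ) ^ e1 :=
          mul_le_mul_of_nonneg_left (Real.rpow_le_rpow_of_exponent_le hA1 (min_le_left _ _))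
            (by positivity)
      _ ≤ _ := hg
      _ ≤ _ := by
          rw [Nat.cast_le]
          refine le_trans (card_le_card ?_)
            (card_image_le (f := fun a : alternatingGroup (Fin n) => (a : Perm (Fin n))))
          intro z hz
          obtain ⟨⟨x, y⟩, hxy, rfl⟩ := mem_image.1 hz
          obtain ⟨hx, hy⟩ := mem_product.1 hxy
          obtain ⟨x0, hx0, rfl⟩ := mem_image.1 hx
          obtain ⟨y0, hy0, rfl⟩ := mem_image.1 hy
          refine mem_image.2 ⟨_, mem_image.2 ⟨(x0, y0), mem_product.2 ⟨hx0, hy0⟩, rfl⟩, ?_⟩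
          simp [mul_assoc]
  · rcases B.eq_empty_or_nonempty with rfl | hBne
    · exact ⟨1, by simp⟩
    have hs : IsSimpleGroup (alternatingGroup (Fin n)) :=
      alternatingGroup.isSimpleGroup (by simpa using hn)
    have hlt : B.card < Fintype.card (alternatingGroup (Fin n)) := by
      rw [← Nat.card_eq_fintype_card, ← Nat.cast_lt (α := ℝ)]
      refine lt_of_le_of_lt hB ?_
      calc (Nat.card (alternatingGroup (Fin n)) : ℝ) ^ (1 - δ)
          < (Nat.card (alternatingGroup (Fin n)) : ℝ) ^ (1 : ℝ) :=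
            Real.rpow_lt_rpow_of_exponent_lt hG1 (by linarith)
        _ = _ := Real.rpow_one _
    obtain ⟨g, hg⟩ := simple_growth A B hA hBne hlt
    refine ⟨g, le_trans ?_ (Nat.cast_le.2 hg)⟩
    have hfac : Fintype.card (alternatingGroup (Fin n)) ≤ n0.factorial := by
      rw [← Nat.card_eq_fintype_card]
      have := Nat.factorial_le (show n ≤ n0 by omega)
      omega
    have hAle : (A.card : ℝ) ≤ n0.factorial := by exact_mod_cast (card_le_univ A).trans hfac
    have hBle : (B.card : ℝ) ≤ n0.factorial := by exact_mod_cast (card_le_univ B).trans hfac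
    have h1 : (A.card : ℝ) ^ min e1 e2 ≤ 1 + 1 / n0.factorial :=
      calc (A.card : ℝ) ^ min e1 e2 ≤ (A.card : ℝ) ^ e2 :=
            Real.rpow_le_rpow_of_exponent_le hA1 (min_le_right _ _)
        _ ≤ (n0.factorial : ℝ) ^ e2 := Real.rpow_le_rpow (by positivity) hAle he2.le
        _ ≤ _ := he3
    have h2 : (B.card : ℝ) * (1 / n0.factorial) ≤ 1 := by
      rw [mul_one_div, div_le_one (by linarith)]; exact hBle
    have h3 := mul_le_mul_of_nonneg_left h1 (show (0 : ℝ) ≤ B.card by positivity)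
    push_cast
    linarith

end Pool.Agent.H174Z.Grow
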